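import Pool.Agent.Q59.LS.Core

/-!
# Invariant tensors with values in a vector space
-/

namespace Pool.Agent.Q59.LS

open Finset Pool.Agent.H204R3.SP Pool.Agent.Q59.GC

section words

variable {I : Type} {Λ : Labels I} [DecidableEq I] [Fintype I]

variable {κ : Type} [Fintype κ] [DecidableEq κ]

omit [DecidableEq κ] in
lemma sum_word (w : κ → Letter Λ) (g : Letter Λ → ℚ) :
    ∑ k, g (w k) = ∑ x, (occ w x : ℚ) * g x := by
  classical
  have h1 : ∀ k, g (w k) = ∑ x, if w k = x then g x else 0 := by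
    intro k
    rw [sum_ite_eq, if_pos (mem_univ _)]
  rw [sum_congr rfl fun k _ => h1 k, sum_comm]
  refine sum_congr rfl fun x _ => ?_
  rw [← sum_filter, sum_const, nsmul_eq_mul]
  rfl

omit [DecidableEq κ] in
lemma sum_word_anti (w : κ → Letter Λ) (g : Letter Λ → ℚ) (hg : ∀ x, g (dual x) = - g x) :
    2 * ∑ k, g (w k) = ∑ x, (net w x : ℚ) * g x := by
  classical
  have h1 := sum_word w g
  have h2 : ∑ k, g (w k) = - ∑ x, (occ w (dual x) : ℚ) * g x := by
    rw [h1, ← sum_neg_distrib]
    let E : Letter Λ ≃ Letter Λ := ⟨dual, dual, dual_dual, dual_dual⟩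
    rw [← Equiv.sum_comp E]
    refine sum_congr rfl fun x _ => ?_
    change (occ w (dual x) : ℚ) * g (dual x) = _
    rw [hg]; ring
  have h3 : 2 * ∑ k, g (w k) = ∑ x, (occ w x : ℚ) * g x -
      ∑ x, (occ w (dual x) : ℚ) * g x := by linarith
  rw [h3, ← sum_sub_distrib]
  refine sum_congr rfl fun x _ => ?_
  unfold net
  push_cast
  ring


end words

section parts

variable {I : Type} {Λ : Labels I} [DecidableEq I] {ε : Letter Λ → ℂ} {κ : Type}

variable [Fintype κ] [DecidableEq κ]

/-- the parities of the numbers of the orthogonal letters -/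
def pv (w : κ → Letter Λ) (x : Letter Λ) : ZMod 2 :=
  if Λ.orth x.1 = true then (occ w x : ZMod 2) else 0

lemma occ_update (w : κ → Letter Λ) (k : κ) (c x : Letter Λ) :
    (occ (Function.update w k c) x : ZMod 2) =
      occ w x + (if w k = x then 1 else 0) + (if c = x then 1 else 0) := by
  have h1 : ∀ v : κ → Letter Λ, (occ v x : ZMod 2) =
      (if v k = x then 1 else 0) + ∑ l ∈ univ.erase k, if v l = x then 1 else 0 := by
    intro v
    rw [add_sum_erase univ (fun l => if v l = x then (1 : ZMod 2) else 0) (mem_univ k)]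
    unfold occ
    rw [card_filter]
    push_cast
    rfl
  rw [h1, h1 w, Function.update_self]
  have h2 : ∑ l ∈ univ.erase k, (if Function.update w k c l = x then (1 : ZMod 2) else 0) =
      ∑ l ∈ univ.erase k, if w l = x then 1 else 0 :=
    sum_congr rfl fun l hl => by rw [Function.update_of_ne (ne_of_mem_erase hl)]
  rw [h2]
  have h3 : (if w k = x then (1 : ZMod 2) else 0) + (if w k = x then 1 else 0) = 0 :=
    CharTwo.add_self_eq_zero _
  linear_combination -h3

variable [Fintype I]

/-- the part of one type and one parity vector -/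
noncomputable def part (x : (κ → Letter Λ) → ℂ) (t : κ → I) (p : Letter Λ → ZMod 2) :
    (κ → Letter Λ) → ℂ :=
  fun w => if (fun k => (w k).1) = t ∧ pv w = p then x w else 0

lemma sum_part (x : (κ → Letter Λ) → ℂ) :
    ∑ t : κ → I, ∑ p : Letter Λ → ZMod 2, part x t p = x := by
  funext w
  rw [Finset.sum_apply]
  have h1 : ∀ t : κ → I, (∑ p : Letter Λ → ZMod 2, part x t p) w =
      if (fun k => (w k).1) = t then x w else 0 := by
    intro t
    rw [Finset.sum_apply]
    unfold part
    by_cases ht : (fun k => (w k).1) = t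
    · simp only [ht, true_and]
      rw [sum_ite_eq, if_pos (mem_univ _), if_pos trivial]
    · simp only [ht, false_and, if_false, sum_const_zero]
  rw [sum_congr rfl fun t _ => h1 t, sum_ite_eq, if_pos (mem_univ _)]

omit [Fintype κ] [DecidableEq I] [Fintype I] in
lemma typ_update {w : κ → Letter Λ} {k : κ} {c : Letter Λ} (h : (w k).1 = c.1) :
    (fun l => (Function.update w k c l).1) = fun l => (w l).1 := by
  funext l
  by_cases hl : l = k
  · subst hl
    rw [Function.update_self, h]
  · rw [Function.update_of_ne hl]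

lemma part_gl {x : (κ → Letter Λ) → ℂ}
    (h1 : ∀ b c : Letter Λ, ¬ Λ.orth b.1 = true → (dual b).1 = c.1 → c ≠ dual b →
      ∀ w : κ → Letter Λ, ∑ k, (JJ dual ε b (w k) * x (Function.update w k c) +
        JJ dual ε c (w k) * x (Function.update w k b)) = 0) (t : κ → I)
    (p : Letter Λ → ZMod 2) :
    ∀ b c : Letter Λ, ¬ Λ.orth b.1 = true → (dual b).1 = c.1 → c ≠ dual b →
      ∀ w : κ → Letter Λ, ∑ k, (JJ dual ε b (w k) * part x t p (Function.update w k c) +
        JJ dual ε c (w k) * part x t p (Function.update w k b)) = 0 := by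
  intro b c hb hbc hne w
  have hcb : (dual c).1 = b.1 := by rw [dual_fst, ← hbc, dual_fst, Λ.star_star]
  have hc : ¬ Λ.orth c.1 = true := by rw [← hbc, orth_dual]; exact hb
  have key : ∀ (b c : Letter Λ), ¬ Λ.orth b.1 = true → ¬ Λ.orth c.1 = true → (dual b).1 = c.1 →
      ∀ k, JJ dual ε b (w k) * part x t p (Function.update w k c) =
      if (fun k => (w k).1) = t ∧ pv w = p then JJ dual ε b (w k) * x (Function.update w k c)
        else 0 := by
    intro b c hb hc hbc k
    unfold JJ
    by_cases h2 : w k = dual b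
    · have h3 := typ_update (w := w) (k := k) (c := c) (by rw [h2, hbc])
      have h4 : pv (Function.update w k c) = pv w := by
        funext z
        unfold pv
        by_cases hz : Λ.orth z.1 = true
        · rw [if_pos hz, if_pos hz, occ_update, if_neg, if_neg, add_zero, add_zero]
          · rintro rfl
            exact hc hz
          · intro h5
            rw [h2] at h5
            apply hb
            rw [← orth_dual, h5]
            exact hz
        · rw [if_neg hz, if_neg hz]
      unfold part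
      rw [h3, h4]
      split_ifs <;> simp
    · rw [if_neg h2, zero_mul, zero_mul]
      split_ifs <;> rfl
  have h2 : ∀ k, JJ dual ε b (w k) * part x t p (Function.update w k c) +
      JJ dual ε c (w k) * part x t p (Function.update w k b) =
      if (fun k => (w k).1) = t ∧ pv w = p then (JJ dual ε b (w k) * x (Function.update w k c) +
        JJ dual ε c (w k) * x (Function.update w k b)) else 0 := by
    intro k
    rw [key b c hb hc hbc k, key c b hc hb hcb k]
    split_ifs <;> simp
  rw [sum_congr rfl fun k _ => h2 k]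
  by_cases h3 : (fun k => (w k).1) = t ∧ pv w = p
  · simp only [if_pos h3]
    exact h1 b c hb hbc hne w
  · simp only [if_neg h3, sum_const_zero]

lemma part_so {x : (κ → Letter Λ) → ℂ}
    (h1 : ∀ b c : Letter Λ, Λ.orth b.1 = true → b.1 = c.1 →
      ∀ w : κ → Letter Λ, ∑ k, (JJ dual ε b (w k) * x (Function.update w k c) -
        JJ dual ε c (w k) * x (Function.update w k b)) = 0) (t : κ → I)
    (p : Letter Λ → ZMod 2) :
    ∀ b c : Letter Λ, Λ.orth b.1 = true → b.1 = c.1 →
      ∀ w : κ → Letter Λ, ∑ k, (JJ dual ε b (w k) * part x t p (Function.update w k c) -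
        JJ dual ε c (w k) * part x t p (Function.update w k b)) = 0 := by
  intro b c hb hbc w
  have hc : Λ.orth c.1 = true := by rw [← hbc]; exact hb
  let q : Letter Λ → ZMod 2 := fun z => pv w z + (if b = z then 1 else 0) + (if c = z then 1 else 0)
  have key : ∀ (b' c' : Letter Λ), Λ.orth b'.1 = true → b'.1 = c'.1 →
      (∀ z, pv w z + (if b' = z then 1 else 0) + (if c' = z then 1 else 0) = q z) →
      ∀ k, JJ dual ε b' (w k) * part x t p (Function.update w k c') =
      if (fun k => (w k).1) = t ∧ q = p then JJ dual ε b' (w k) * x (Function.update w k c')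
        else 0 := by
    intro b' c' hb' hbc' hq k
    have hc' : Λ.orth c'.1 = true := by rw [← hbc']; exact hb'
    unfold JJ
    rw [dual_of_orth hb']
    by_cases h2 : w k = b'
    · have h3 := typ_update (w := w) (k := k) (c := c') (by rw [h2, hbc'])
      have h4 : pv (Function.update w k c') = q := by
        funext z
        rw [← hq z]
        unfold pv
        by_cases hz : Λ.orth z.1 = true
        · rw [if_pos hz, if_pos hz, occ_update, h2]
        · rw [if_neg hz, if_neg hz, if_neg, if_neg, add_zero, add_zero]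
          · rintro rfl
            exact hz hc'
          · rintro rfl
            exact hz hb'
      unfold part
      rw [h3, h4]
      split_ifs <;> simp
    · rw [if_neg h2, zero_mul, zero_mul]
      split_ifs <;> rfl
  have h2 : ∀ k, JJ dual ε b (w k) * part x t p (Function.update w k c) -
      JJ dual ε c (w k) * part x t p (Function.update w k b) =
      if (fun k => (w k).1) = t ∧ q = p then (JJ dual ε b (w k) * x (Function.update w k c) -
        JJ dual ε c (w k) * x (Function.update w k b)) else 0 := by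
    intro k
    rw [key b c hb hbc (fun z => rfl) k, key c b hc hbc.symm (fun z => by
      change _ = pv w z + (if b = z then 1 else 0) + (if c = z then 1 else 0)
      ring) k]
    split_ifs <;> simp
  rw [sum_congr rfl fun k _ => h2 k]
  by_cases h3 : (fun k => (w k).1) = t ∧ q = p
  · simp only [if_pos h3]
    exact h1 b c hb hbc w
  · simp only [if_neg h3, sum_const_zero]


end parts

variable {I : Type} {Λ : Labels I} [DecidableEq I] [Fintype I] {ε : Letter Λ → ℂ}

variable {κ : Type} [Fintype κ] [DecidableEq κ]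

variable {W : Type} [AddCommGroup W] [Module ℂ W]

/-- The action of a linear map on the tensor product of `W` and the tensor power of `H`. -/
noncomputable def actW (g : Matrix (Letter Λ) (Letter Λ) ℂ)
    (x : (κ → Letter Λ) → W) : (κ → Letter Λ) → W :=
  fun w => ∑ v : κ → Letter Λ, (∏ k, g (w k) (v k)) • x v

/-- The products of an element `z` of `W` with a product of determinants and pairings, such that the
list `μ` of the determinants and `z` satisfy `P`. -/
noncomputable def spanZ (P : ∀ l : ℕ, (Fin l → I) → W → Prop) (ε : Letter Λ → ℂ) (κ : Type) :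
    Submodule ℂ ((κ → Letter Λ) → W) :=
  Submodule.span ℂ {y | ∃ (l p : ℕ) (μ : Fin l → I) (ν : Fin p → I)
    (e : (Σ j : Fin l, Fin (Λ.dim (μ j))) ⊕ (Fin p × Fin 2) ≃ κ) (z : W),
    P l μ z ∧ y = fun w => prodOf ε μ ν e w • z}

omit [DecidableEq I] [Fintype I] [Fintype κ] [DecidableEq κ] in
/-- functions with values in `W` all of whose coordinates lie in a space of functions -/
lemma mem_span_smul {X : Type} [Finite X] (Q : Submodule ℂ (X → ℂ)) (F : X → W)
    (hF : ∀ φ : Module.Dual ℂ W, (fun w => φ (F w)) ∈ Q) :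
    F ∈ Submodule.span ℂ {y : X → W | ∃ f ∈ Q, ∃ z ∈ Submodule.span ℂ (Set.range F),
      y = fun w => f w • z} := by
  classical
  set W' := Submodule.span ℂ (Set.range F) with hW'
  have hfin : FiniteDimensional ℂ W' := FiniteDimensional.span_of_finite ℂ (Set.finite_range F)
  let b := Module.finBasis ℂ W'
  have hmem : ∀ w, F w ∈ W' := fun w => Submodule.subset_span ⟨w, rfl⟩
  have hext : ∀ i, ∃ φ : Module.Dual ℂ W, ∀ y : W', φ (y : W) = b.coord i y := by
    intro i
    obtain ⟨φ, hφ⟩ := LinearMap.exists_extend (b.coord i)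
    exact ⟨φ, fun y => LinearMap.congr_fun hφ y⟩
  choose φ hφ using hext
  have e1 : F = ∑ i, fun w => φ i (F w) • ((b i : W') : W) := by
    funext w
    rw [Finset.sum_apply]
    have h1 := b.sum_repr ⟨F w, hmem w⟩
    have h2 : ((∑ i, (b.repr ⟨F w, hmem w⟩) i • b i : W') : W) = F w := congrArg Subtype.val h1
    rw [Submodule.coe_sum] at h2
    refine h2.symm.trans (sum_congr rfl fun i _ => ?_)
    rw [Submodule.coe_smul]
    have h3 := hφ i ⟨F w, hmem w⟩
    change φ i (F w) = _ at h3
    rw [h3]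
    rfl
  rw [e1]
  refine Submodule.sum_mem _ fun i _ => Submodule.subset_span ⟨_, hF (φ i), (b i : W), (b i).2, rfl⟩

lemma act_dual {g : Matrix (Letter Λ) (Letter Λ) ℂ} {x : (κ → Letter Λ) → W}
    (h : actW g x = x) (φ : Module.Dual ℂ W) : act g (fun w => φ (x w)) = fun w => φ (x w) := by
  funext w
  have h1 := congrFun h w
  unfold actW at h1
  unfold act
  rw [← h1, map_sum]
  exact sum_congr rfl fun v _ => by rw [map_smul, smul_eq_mul]

/-- the part of one type and one parity vector -/
noncomputable def partW (x : (κ → Letter Λ) → W) (t : κ → I) (p : Letter Λ → ZMod 2) :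
    (κ → Letter Λ) → W :=
  fun w => if (fun k => (w k).1) = t ∧ pv w = p then x w else 0

lemma sum_partW (x : (κ → Letter Λ) → W) :
    ∑ t : κ → I, ∑ p : Letter Λ → ZMod 2, partW x t p = x := by
  classical
  funext w
  rw [Finset.sum_apply]
  have h1 : ∀ t : κ → I, (∑ p : Letter Λ → ZMod 2, partW x t p) w =
      if (fun k => (w k).1) = t then x w else 0 := by
    intro t
    rw [Finset.sum_apply]
    unfold partW
    by_cases ht : (fun k => (w k).1) = t
    · simp only [ht, true_and]
      rw [sum_ite_eq, if_pos (mem_univ _), if_pos trivial]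
    · simp only [ht, false_and, if_false, sum_const_zero]
  rw [sum_congr rfl fun t _ => h1 t, sum_ite_eq, if_pos (mem_univ _)]

lemma part_dual (x : (κ → Letter Λ) → W) (t : κ → I) (p : Letter Λ → ZMod 2)
    (φ : Module.Dual ℂ W) :
    (fun w => φ (partW x t p w)) = part (fun w => φ (x w)) t p := by
  funext w
  unfold partW part
  split_ifs
  · rfl
  · exact map_zero φ

lemma exists_dual {z : W} (hz : z ≠ 0) : ∃ φ : Module.Dual ℂ W, φ z ≠ 0 := by
  by_contra h
  push Not at h
  exact hz ((Module.forall_dual_apply_eq_zero_iff ℂ z).mp h)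

omit [Fintype I] [DecidableEq κ] in
/-- the multiplicities depend only on the net numbers and the parities -/
lemma mult_congr {w w' : κ → Letter Λ} (h1 : ∀ x, net w x = net w' x)
    (h2 : ∀ x : Letter Λ, Λ.orth x.1 = true → occ w x % 2 = occ w' x % 2) (i : I) :
    mult w i = mult w' i := by
  unfold mult
  split_ifs with h ho
  · exact h2 _ ho
  · rw [h1]
  · rfl

omit [DecidableEq κ] in
/-- the sum of an antisymmetric function of the labels over a balanced word -/
lemma sum_off (o : I → ℚ) (ho : ∀ i, o (Λ.star i) = - o i) {w : κ → Letter Λ}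
    (heq : ∀ (i : I) (a b : Fin (Λ.dim i)), net w ⟨i, a⟩ = net w ⟨i, b⟩) :
    ∑ k, o (w k).1 / Λ.dim (w k).1 = ∑ i : I, (mult w i : ℚ) * o i := by
  have ho0 : ∀ i, Λ.orth i = true → o i = 0 := by
    intro i hi
    have h1 := ho i
    rw [Λ.orth_star i hi] at h1
    linarith
  set g : Letter Λ → ℚ := fun x => o x.1 / Λ.dim x.1 with hg
  have h2 : 2 * ∑ k, g (w k) = ∑ x, (net w x : ℚ) * g x := sum_word_anti w g fun x => by
    rw [hg]
    change o (dual x).1 / Λ.dim (dual x).1 = _
    rw [dual_fst, ho, Λ.dim_star]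
    ring
  have h3 : ∀ i : I, ∑ a : Fin (Λ.dim i), (net w ⟨i, a⟩ : ℚ) * g ⟨i, a⟩ =
      ((mult w i : ℚ) - mult w (Λ.star i)) * o i := by
    intro i
    by_cases hor : Λ.orth i = true
    · rw [ho0 i hor]
      rw [sum_eq_zero fun a _ => by rw [net_orth w (x := ⟨i, a⟩) hor]; simp]
      simp
    by_cases hd : 0 < Λ.dim i
    · have e1 : ∀ a : Fin (Λ.dim i), (net w ⟨i, a⟩ : ℚ) * g ⟨i, a⟩ =
          ((mult w i : ℚ) - mult w (Λ.star i)) * (o i / Λ.dim i) := by
        intro a
        have h4 := net_eq_mult heq (x := ⟨i, a⟩) hor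
        rw [h4]
        push_cast
        rfl
      rw [sum_congr rfl fun a _ => e1 a, sum_const, card_univ, Fintype.card_fin, nsmul_eq_mul]
      have hd' : (Λ.dim i : ℚ) ≠ 0 := by exact_mod_cast hd.ne'
      field_simp
    · have e1 : mult w i = 0 := by unfold mult; rw [dif_neg hd]
      have e2 : mult w (Λ.star i) = 0 := by
        unfold mult
        rw [dif_neg]
        rw [Λ.dim_star]; exact hd
      rw [e1, e2]
      have : IsEmpty (Fin (Λ.dim i)) := by
        have h0 : Λ.dim i = 0 := by omega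
        rw [h0]; infer_instance
      rw [univ_eq_empty, sum_empty]
      ring
  have h2' : 2 * ∑ k, g (w k) = ∑ i : I, ((mult w i : ℚ) - mult w (Λ.star i)) * o i := by
    rw [h2, ← univ_sigma_univ, sum_sigma]
    exact sum_congr rfl fun i _ => h3 i
  have h4 : ∑ i : I, (mult w (Λ.star i) : ℚ) * o i = - ∑ i : I, (mult w i : ℚ) * o i := by
    rw [← sum_neg_distrib]
    let E : I ≃ I := ⟨Λ.star, Λ.star, Λ.star_star, Λ.star_star⟩
    rw [← Equiv.sum_comp E]
    refine sum_congr rfl fun i _ => ?_
    change (mult w (Λ.star (Λ.star i)) : ℚ) * o (Λ.star i) = _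
    rw [Λ.star_star, ho]
    ring
  have h5 : ∑ i : I, ((mult w i : ℚ) - mult w (Λ.star i)) * o i =
      ∑ i : I, (mult w i : ℚ) * o i - ∑ i : I, (mult w (Λ.star i) : ℚ) * o i := by
    rw [← sum_sub_distrib]
    exact sum_congr rfl fun i _ => by ring
  rw [h5, h4] at h2'
  have h6 : ∑ k, g (w k) = ∑ i : I, (mult w i : ℚ) * o i := by linarith
  exact h6

omit [Fintype I] [DecidableEq κ] in
/-- products of a vector with the members of the span of the products with given determinants -/
lemma detSpan_smul {L : Type} [Fintype L] {μ0 : L → I} (z : W)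
    {P : ∀ l : ℕ, (Fin l → I) → W → Prop}
    (hP : ∀ (l : ℕ) (μ : Fin l → I), (∀ j, 0 < Λ.dim (μ j)) →
      (∑ j, Λ.dim (μ j) ≤ Fintype.card κ) → (∀ j, Λ.dim (μ j) ≤ Fintype.card κ) →
      (∃ q, ∑ j, Λ.dim (μ j) + q * 2 = Fintype.card κ) →
      (∀ g : I → ℚ, ∑ j, g (μ j) = ∑ j, g (μ0 j)) → P l μ z)
    (hpos : ∀ j, 0 < Λ.dim (μ0 j)) {f : (κ → Letter Λ) → ℂ} (hf : f ∈ DetSpan ε μ0 κ) :
    (fun w => f w • z) ∈ spanZ P ε κ := by
  classical
  unfold DetSpan at hf
  induction hf using Submodule.span_induction with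
  | mem f hf =>
    obtain ⟨q, ν, e, rfl⟩ := hf
    let η := Fintype.equivFin L
    have hcard := Fintype.card_congr e
    rw [Fintype.card_sum, Fintype.card_sigma, Fintype.card_prod, Fintype.card_fin,
      Fintype.card_fin] at hcard
    simp only [Fintype.card_fin] at hcard
    have hsumη : ∑ j, Λ.dim (μ0 (η.symm j)) = ∑ j, Λ.dim (μ0 j) :=
      Equiv.sum_comp η.symm fun j => Λ.dim (μ0 j)
    refine Submodule.subset_span ⟨Fintype.card L, q,
      fun j => μ0 (η.symm j), ν,
      (Equiv.sumCongr (Equiv.sigmaCongrLeft (β := fun j => Fin (Λ.dim (μ0 j))) η.symm)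
        (Equiv.refl _)).trans e, z, ?_, ?_⟩
    · refine hP _ _ (fun j => hpos _) ?_ (fun j => ?_) ⟨q, ?_⟩ fun g => ?_
      · rw [hsumη]; omega
      · have h9 : Λ.dim (μ0 (η.symm j)) ≤ ∑ j, Λ.dim (μ0 (η.symm j)) :=
          single_le_sum (f := fun j => Λ.dim (μ0 (η.symm j))) (fun _ _ => Nat.zero_le _)
            (mem_univ j)
        rw [hsumη] at h9
        omega
      · rw [hsumη]; exact hcard
      · exact Equiv.sum_comp η.symm fun j => g (μ0 j)
    · funext w
      congr 1
      unfold prodOf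
      congr 1
      exact Fintype.prod_equiv η _ _ fun j => by
        obtain ⟨j', rfl⟩ := η.symm.surjective j
        rw [Equiv.apply_symm_apply]
        rfl
  | zero =>
    have e1 : (fun w : κ → Letter Λ => (0 : (κ → Letter Λ) → ℂ) w • z) = 0 := by
      funext w; simp
    rw [e1]
    exact Submodule.zero_mem _
  | add a b _ _ ha hb =>
    have e1 : (fun w : κ → Letter Λ => (a + b) w • z) = (fun w => a w • z) + fun w => b w • z := by
      funext w
      rw [Pi.add_apply, Pi.add_apply, add_smul]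
    rw [e1]
    exact Submodule.add_mem _ ha hb
  | smul r a _ ha =>
    have e1 : (fun w : κ → Letter Λ => (r • a) w • z) = r • fun w => a w • z := by
      funext w
      rw [Pi.smul_apply, Pi.smul_apply, smul_eq_mul, mul_smul]
    rw [e1]
    exact Submodule.smul_mem _ r ha

/-- the first fundamental theorem for one coordinate -/
lemma coord_core (hε : ∀ x : Letter Λ, ¬ Λ.orth x.1 = true → ε (dual x) = -ε x)
    (hε0 : ∀ x, ε x ≠ 0) {x : (κ → Letter Λ) → ℂ} (hinv : ∀ g, InD ε g → act g x = x)
    {t : κ → I} {p : Letter Λ → ZMod 2} {w1 : κ → Letter Λ} (hw1 : part x t p w1 ≠ 0)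
    (heq : ∀ w, part x t p w ≠ 0 → ∀ (i : I) (a b : Fin (Λ.dim i)),
      net w ⟨i, a⟩ = net w ⟨i, b⟩)
    (hpar : ∀ w, part x t p w ≠ 0 → ∀ (i : I), Λ.orth i = true → ∀ (a b : Fin (Λ.dim i)),
      occ w ⟨i, a⟩ % 2 = occ w ⟨i, b⟩ % 2)
    (hocc : ∀ w, part x t p w ≠ 0 → ∀ z : Letter Λ, Λ.orth z.1 = true →
      occ w z % 2 = occ w1 z % 2)
    {m : I → ℕ} (hm : mult w1 = m) :
    part x t p ∈ DetSpan ε (fun j : Σ i : I, Fin (m i) => j.1) κ := by
  subst hm
  have hpart : ∀ w, part x t p w ≠ 0 → ∀ k, (w k).1 = t k := by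
    intro w hw
    unfold part at hw
    split_ifs at hw with h
    · exact fun k => congrFun h.1 k
    · exact absurd rfl hw
  exact core hε hε0
    (part_gl (fun b c hb hbc hne w => root_rel hε hε0 hinv hb hbc hne w) t p)
    (part_so (fun b c hb hbc w => rot_rel hε0 hinv hb hbc w) t p)
    hpart heq hpar hw1 hocc

/-- Reduced lists of determinants: a label and its dual label do not both occur (unless they are
orthogonal), and an orthogonal label occurs at most once. -/
structure Reduced (Λ : Labels I) {l : ℕ} (μ : Fin l → I) : Prop where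
  pos : ∀ j, 0 < Λ.dim (μ j)
  star : ∀ j j', ¬ Λ.orth (μ j) = true → μ j' ≠ Λ.star (μ j)
  orth : ∀ j j', Λ.orth (μ j) = true → μ j = μ j' → j = j'

/-- **Vector valued invariants**, with reduced lists of determinants. -/
theorem mainR (hε : ∀ x : Letter Λ, ¬ Λ.orth x.1 = true → ε (dual x) = -ε x)
    (hε0 : ∀ x, ε x ≠ 0) {T : Type} (o : T → I → ℚ) (ho : ∀ t i, o t (Λ.star i) = - o t i)
    (F : T → ℚ → Submodule ℂ W) (c : ℚ) {x : (κ → Letter Λ) → W}
    (hinv : ∀ g, InD ε g → actW g x = x)
    (htype : ∀ t w, x w ∈ F t (c - ∑ k, o t (w k).1 / Λ.dim (w k).1))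
    (P : ∀ l : ℕ, (Fin l → I) → W → Prop)
    (hP : ∀ (l : ℕ) (μ : Fin l → I), Reduced Λ μ →
      (∃ q, ∑ j, Λ.dim (μ j) + q * 2 = Fintype.card κ) → ∀ z : W,
      (∀ t, z ∈ F t (c - ∑ j, o t (μ j))) → P l μ z) :
    x ∈ spanZ P ε κ := by
  classical
  rw [← sum_partW x]
  refine Submodule.sum_mem _ fun t _ => Submodule.sum_mem _ fun p _ => ?_
  by_cases h0 : partW x t p = 0
  · rw [h0]; exact Submodule.zero_mem _
  obtain ⟨w0, hw0⟩ := Function.ne_iff.mp h0
  rw [Pi.zero_apply] at hw0
  have hpart : ∀ w, partW x t p w ≠ 0 → ((fun k => (w k).1) = t ∧ pv w = p) ∧ x w ≠ 0 := by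
    intro w hw
    unfold partW at hw
    split_ifs at hw with h
    · exact ⟨h, hw⟩
    · exact absurd rfl hw
  have hinvφ : ∀ φ : Module.Dual ℂ W, ∀ g, InD ε g → act g (fun w => φ (x w)) =
      fun w => φ (x w) := fun φ g hg => act_dual (hinv g hg) φ
  have heqx : ∀ w, x w ≠ 0 → ∀ (i : I) (a b : Fin (Λ.dim i)),
      net w ⟨i, a⟩ = net w ⟨i, b⟩ := by
    intro w hw i a b
    obtain ⟨φ, hφ⟩ := exists_dual hw
    exact net_eq (hinvφ φ) hφ i a b
  have hparx : ∀ w, x w ≠ 0 → ∀ (i : I), Λ.orth i = true → ∀ (a b : Fin (Λ.dim i)),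
      occ w ⟨i, a⟩ % 2 = occ w ⟨i, b⟩ % 2 := by
    intro w hw i hi a b
    obtain ⟨φ, hφ⟩ := exists_dual hw
    exact parity_eq (hinvφ φ) hφ hi a b
  -- all words of the part have the same net numbers and parities
  have hnet : ∀ w, partW x t p w ≠ 0 → ∀ y, net w y = net w0 y := by
    rintro w hw ⟨i, a⟩
    have e1 : ∑ a, net w ⟨i, a⟩ = ∑ a, net w0 ⟨i, a⟩ := by
      rw [sum_net, sum_net]
      refine sum_congr rfl fun k _ => ?_
      have h1 : (w k).1 = (w0 k).1 := by
        rw [congrFun (hpart w hw).1.1 k, ← congrFun (hpart w0 hw0).1.1 k]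
      rw [h1]
    rw [sum_congr rfl fun j _ => heqx w (hpart w hw).2 i j a,
      sum_congr rfl fun j _ => heqx w0 (hpart w0 hw0).2 i j a,
      sum_const, sum_const, card_univ, Fintype.card_fin, nsmul_eq_mul, nsmul_eq_mul] at e1
    have h : 0 < Λ.dim i := (Nat.zero_le _).trans_lt a.2
    have h3 : ((Λ.dim i : ℕ) : ℤ) ≠ 0 := by exact_mod_cast h.ne'
    exact mul_left_cancel₀ h3 e1
  have hocc : ∀ w, partW x t p w ≠ 0 → ∀ z : Letter Λ, Λ.orth z.1 = true →
      occ w z % 2 = occ w0 z % 2 := by
    intro w hw z hz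
    have h1 : pv w z = pv w0 z := by rw [(hpart w hw).1.2, (hpart w0 hw0).1.2]
    unfold pv at h1
    rw [if_pos hz, if_pos hz] at h1
    exact (ZMod.natCast_eq_natCast_iff' _ _ 2).mp h1
  have hmult : ∀ w, partW x t p w ≠ 0 → mult w = mult w0 := fun w hw => by
    funext i
    exact mult_congr (hnet w hw) (hocc w hw) i
  -- each coordinate is a combination of products with the same determinants
  set μ0 : (Σ i : I, Fin (mult w0 i)) → I := fun j => j.1 with hμ0
  have hcoord : ∀ φ : Module.Dual ℂ W, (fun w => φ (partW x t p w)) ∈ DetSpan ε μ0 κ := by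
    intro φ
    rw [part_dual]
    by_cases h1 : part (fun w => φ (x w)) t p = 0
    · rw [h1]; exact Submodule.zero_mem _
    obtain ⟨w1, hw1⟩ := Function.ne_iff.mp h1
    rw [Pi.zero_apply] at hw1
    have hpartφ : ∀ w, part (fun w => φ (x w)) t p w ≠ 0 → partW x t p w ≠ 0 := by
      intro w hw h2
      apply hw
      rw [← part_dual]
      change φ (partW x t p w) = 0
      rw [h2, map_zero]
    exact coord_core hε hε0 (x := fun w => φ (x w)) (hinvφ φ) hw1
      (fun w hw => heqx w (hpart w (hpartφ w hw)).2)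
      (fun w hw => hparx w (hpart w (hpartφ w hw)).2)
      (fun w hw z hz => by
        rw [hocc w (hpartφ w hw) z hz, hocc w1 (hpartφ w1 hw1) z hz])
      (hmult w1 (hpartφ w1 hw1))
  have hspan := mem_span_smul (DetSpan ε μ0 κ) (partW x t p) hcoord
  -- the type of the values
  have hval : ∀ s, ∑ k, o s (w0 k).1 / Λ.dim (w0 k).1 = ∑ j, o s (μ0 j) := by
    intro s
    rw [sum_off (o s) (ho s) (heqx w0 (hpart w0 hw0).2), hμ0, Fintype.sum_sigma]
    refine sum_congr rfl fun i _ => ?_
    change _ = ∑ _y : Fin (mult w0 i), o s i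
    rw [sum_const, card_univ, Fintype.card_fin, nsmul_eq_mul]
  have hz : ∀ z ∈ Submodule.span ℂ (Set.range (partW x t p)), ∀ s,
      z ∈ F s (c - ∑ j, o s (μ0 j)) := by
    intro z hz s
    have hle : Submodule.span ℂ (Set.range (partW x t p)) ≤ F s (c - ∑ j, o s (μ0 j)) := by
      rw [Submodule.span_le]
      rintro _ ⟨w, rfl⟩
      by_cases hw : partW x t p w = 0
      · rw [hw]; exact Submodule.zero_mem _
      · have h1 := htype s w
        have h2 : ∑ k, o s (w k).1 / Λ.dim (w k).1 = ∑ k, o s (w0 k).1 / Λ.dim (w0 k).1 := by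
          refine sum_congr rfl fun k _ => ?_
          have h1 : (w k).1 = (w0 k).1 := by
            rw [congrFun (hpart w hw).1.1 k, ← congrFun (hpart w0 hw0).1.1 k]
          rw [h1]
        rw [h2, hval s] at h1
        have h3 : partW x t p w = x w := by
          unfold partW
          rw [if_pos (hpart w hw).1]
        rw [SetLike.mem_coe, h3]
        exact h1
    exact hle hz
  -- the lists are reduced
  have hcount : ∀ {l : ℕ} {μ : Fin l → I}, (∀ g : I → ℚ, ∑ j, g (μ j) = ∑ j, g (μ0 j)) →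
      ∀ i, (univ.filter fun j => μ j = i).card = mult w0 i := by
    intro l μ h5 i
    have h6 := h5 fun i' => if i' = i then 1 else 0
    rw [Finset.sum_boole, hμ0, Fintype.sum_sigma] at h6
    have h7 : ∀ i' : I, ∑ _y : Fin (mult w0 i'), (if i' = i then (1 : ℚ) else 0) =
        if i' = i then (mult w0 i' : ℚ) else 0 := by
      intro i'
      rw [sum_const, card_univ, Fintype.card_fin, nsmul_eq_mul]
      split_ifs <;> simp
    rw [sum_congr rfl fun i' _ => h7 i', sum_ite_eq' univ i, if_pos (mem_univ _)] at h6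
    exact_mod_cast h6
  have red : ∀ {l : ℕ} {μ : Fin l → I}, (∀ j, 0 < Λ.dim (μ j)) →
      (∀ g : I → ℚ, ∑ j, g (μ j) = ∑ j, g (μ0 j)) → Reduced Λ μ := by
    intro l μ h1 h5
    refine ⟨h1, fun j j' ho he => ?_, fun j j' ho he => ?_⟩
    · have h6 := hcount h5 (μ j)
      have h7 := hcount h5 (Λ.star (μ j))
      have h8 : 0 < mult w0 (μ j) := by
        rw [← h6]
        exact card_pos.mpr ⟨j, mem_filter.mpr ⟨mem_univ _, rfl⟩⟩
      have h9 : 0 < mult w0 (Λ.star (μ j)) := by
        rw [← h7]
        exact card_pos.mpr ⟨j', mem_filter.mpr ⟨mem_univ _, he⟩⟩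
      have hb := heqx w0 (hpart w0 hw0).2
      have h10 := mult_eq hb (x := ⟨μ j, ⟨0, h1 j⟩⟩) ho
      have h11 := mult_star hb (x := ⟨μ j, ⟨0, h1 j⟩⟩) ho
      change ((mult w0 (μ j) : ℕ) : ℤ) = _ at h10
      change ((mult w0 (Λ.star (μ j)) : ℕ) : ℤ) = _ at h11
      omega
    · have h6 := hcount h5 (μ j)
      have h7 : mult w0 (μ j) ≤ 1 := by
        unfold mult
        rw [dif_pos (h1 j), if_pos ho]
        omega
      have h8 := card_le_one.mp (h6.le.trans h7) j (mem_filter.mpr ⟨mem_univ _, rfl⟩) j'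
        (mem_filter.mpr ⟨mem_univ _, he.symm⟩)
      exact h8
  -- conclusion
  refine Submodule.span_le.mpr ?_ hspan
  rintro y ⟨f, hf, z, hzW, rfl⟩
  exact detSpan_smul z (fun l μ h1 h2 h3 h4 h5 => hP l μ (red h1 h5) h4 z fun s => by
    rw [h5 (o s)]
    exact hz z hzW s) (fun j => by
      obtain ⟨i, a⟩ := j
      by_contra h8
      have h5 : 0 < mult w0 i := (Nat.zero_le _).trans_lt a.2
      unfold mult at h5
      rw [dif_neg h8] at h5
      exact lt_irrefl 0 h5) hf

/-- **Vector valued invariants.** -/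
theorem mainZ (hε : ∀ x : Letter Λ, ¬ Λ.orth x.1 = true → ε (dual x) = -ε x)
    (hε0 : ∀ x, ε x ≠ 0) {T : Type} (o : T → I → ℚ) (ho : ∀ t i, o t (Λ.star i) = - o t i)
    (F : T → ℚ → Submodule ℂ W) (c : ℚ) {x : (κ → Letter Λ) → W}
    (hinv : ∀ g, InD ε g → actW g x = x)
    (htype : ∀ t w, x w ∈ F t (c - ∑ k, o t (w k).1 / Λ.dim (w k).1))
    (P : ∀ l : ℕ, (Fin l → I) → W → Prop)
    (hP : ∀ (l : ℕ) (μ : Fin l → I), (∀ j, 0 < Λ.dim (μ j)) →
      (∑ j, Λ.dim (μ j) ≤ Fintype.card κ) → (∀ j, Λ.dim (μ j) ≤ Fintype.card κ) →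
      (∃ q, ∑ j, Λ.dim (μ j) + q * 2 = Fintype.card κ) → ∀ z : W,
      (∀ t, z ∈ F t (c - ∑ j, o t (μ j))) → P l μ z) :
    x ∈ spanZ P ε κ :=
  mainR hε hε0 o ho F c hinv htype P fun l μ hr hq z hz => hP l μ hr.pos
    (by obtain ⟨q, hq⟩ := hq; omega)
    (fun j => by
      obtain ⟨q, hq⟩ := hq
      have h9 : Λ.dim (μ j) ≤ ∑ j, Λ.dim (μ j) :=
        single_le_sum (f := fun j => Λ.dim (μ j)) (fun _ _ => Nat.zero_le _) (mem_univ j)
      omega) hq z hz

end Pool.Agent.Q59.LS
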