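import Pool.Agent.Q59.LS.Match

/-!
# The first fundamental theorem for `D`
-/

namespace Pool.Agent.Q59.LS

open Pool.Agent.Q59.GC Finset Equiv Pool.Agent.H204R3.SP Pool.Agent.H204R3.GP

variable {I : Type} {Λ : Labels I} [DecidableEq I] {ε : Letter Λ → ℂ}

variable {κ : Type} [Fintype κ] [DecidableEq κ]

omit [DecidableEq κ] in
/-- the differences of a selfpaired word -/
lemma sum_net (w : κ → Letter Λ) (i : I) : ∑ a, net w ⟨i, a⟩ =
    ∑ k, ((if (w k).1 = i then (1 : ℤ) else 0) - (if Λ.star (w k).1 = i then 1 else 0)) := by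
  have h1 : ∀ z : Letter Λ, ∑ a : Fin (Λ.dim i), (if z = ⟨i, a⟩ then (1 : ℤ) else 0) =
      if z.1 = i then 1 else 0 := by
    rintro ⟨ν, i0⟩
    by_cases h : ν = i
    · subst h
      simp only [mk_eq_iff]
      rw [sum_ite_eq, if_pos (mem_univ _)]
      simp
    · rw [if_neg h]
      exact sum_eq_zero fun i _ => if_neg fun h' => h (congrArg Sigma.fst h')
  have h2 : ∀ (z : Letter Λ) (a : Fin (Λ.dim i)), (z = dual ⟨i, a⟩) = (dual z = ⟨i, a⟩) := by
    intro z a
    rw [eq_iff_iff]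
    exact ⟨fun h => by rw [h, dual_dual], fun h => by rw [← h, dual_dual]⟩
  calc ∑ a, net w ⟨i, a⟩ = ∑ a : Fin (Λ.dim i), ∑ k, ((if w k = ⟨i, a⟩ then (1 : ℤ) else 0) -
        (if w k = dual ⟨i, a⟩ then 1 else 0)) := sum_congr rfl fun a _ => (sum_single w _).symm
    _ = ∑ k, ∑ a : Fin (Λ.dim i), ((if w k = ⟨i, a⟩ then (1 : ℤ) else 0) -
        (if w k = dual ⟨i, a⟩ then 1 else 0)) := sum_comm
    _ = _ := by
      refine sum_congr rfl fun k _ => ?_
      rw [sum_sub_distrib, h1]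
      simp only [h2]
      rw [h1, dual_fst]

omit [DecidableEq κ] in
lemma even_card [Fintype I] (hε : ∀ x : Letter Λ, ¬ Λ.orth x.1 = true → ε (dual x) = -ε x)
    (hε0 : ∀ x, ε x ≠ 0) (K : κ → Letter Λ)
    (h : ∀ x : Letter Λ, ¬ Λ.orth x.1 = true → net K x = 0)
    (h' : ∀ x : Letter Λ, Λ.orth x.1 = true → Even (occ K x)) : Even (Fintype.card κ) := by
  classical
  have h1 : Fintype.card κ = ∑ x : Letter Λ, occ K x := by
    rw [← card_univ]
    exact card_eq_sum_card_fiberwise fun k _ => mem_univ (K k)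
  rw [← ZMod.natCast_eq_zero_iff_even, h1]
  push_cast
  have h2 : ∀ x : Letter Λ, ((occ K x : ℕ) : ZMod 2) =
      if ¬ Λ.orth x.1 = true then ((occ K x : ℕ) : ZMod 2) else 0 := by
    intro x
    by_cases ho : Λ.orth x.1 = true
    · rw [if_neg (not_not.mpr ho)]
      exact (ZMod.natCast_eq_zero_iff_even).mpr (h' x ho)
    · rw [if_pos ho]
  rw [sum_congr rfl fun x _ => h2 x, ← sum_filter]
  refine sum_involution (fun x _ => dual x) (fun x hx => ?_) (fun x hx _ => ?_)
    (fun x hx => ?_) (fun x _ => dual_dual x)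
  · rw [mem_filter] at hx
    have h3 := h x hx.2
    unfold net at h3
    have h4 : occ K x = occ K (dual x) := by omega
    rw [← h4]
    exact CharTwo.add_self_eq_zero _
  · rw [mem_filter] at hx
    exact dual_ne hε hε0 hx.2
  · rw [mem_filter] at hx ⊢
    exact ⟨mem_univ _, by rw [orth_dual]; exact hx.2⟩

/-- the multiplicities of the determinants in a word -/
noncomputable def mult (w : κ → Letter Λ) (i : I) : ℕ :=
  if h : 0 < Λ.dim i then
    (if Λ.orth i = true then occ w ⟨i, ⟨0, h⟩⟩ % 2 else (net w ⟨i, ⟨0, h⟩⟩).toNat) else 0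

omit [DecidableEq κ] in
lemma mult_eq {w : κ → Letter Λ} (heq : ∀ (i : I) (a b : Fin (Λ.dim i)),
    net w ⟨i, a⟩ = net w ⟨i, b⟩) {x : Letter Λ} (hx : ¬ Λ.orth x.1 = true) :
    (mult w x.1 : ℤ) = max (net w x) 0 := by
  obtain ⟨i, a⟩ := x
  have h : 0 < Λ.dim i := (Nat.zero_le _).trans_lt a.2
  have hx' : ¬ Λ.orth i = true := hx
  unfold mult
  rw [dif_pos h, if_neg hx', Int.toNat_eq_max, heq i ⟨0, h⟩ a]

omit [DecidableEq κ] in
lemma mult_star {w : κ → Letter Λ} (heq : ∀ (i : I) (a b : Fin (Λ.dim i)),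
    net w ⟨i, a⟩ = net w ⟨i, b⟩) {x : Letter Λ} (hx : ¬ Λ.orth x.1 = true) :
    (mult w (Λ.star x.1) : ℤ) = max (-net w x) 0 := by
  have := mult_eq heq (x := dual x) (by rw [orth_dual]; exact hx)
  rwa [net_dual, dual_fst] at this

omit [DecidableEq κ] in
lemma net_eq_mult {w : κ → Letter Λ} (heq : ∀ (i : I) (a b : Fin (Λ.dim i)),
    net w ⟨i, a⟩ = net w ⟨i, b⟩) {x : Letter Λ} (hx : ¬ Λ.orth x.1 = true) :
    net w x = (mult w x.1 : ℤ) - mult w (Λ.star x.1) := by
  rw [mult_eq heq hx, mult_star heq hx]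
  rcases le_total 0 (net w x) with h | h
  · rw [max_eq_left h, max_eq_right (by linarith)]; ring
  · rw [max_eq_right h, max_eq_left (by linarith)]; ring

omit [DecidableEq κ] in
lemma mult_orth {w : κ → Letter Λ} (hpar : ∀ (i : I), Λ.orth i = true → ∀ (a b : Fin (Λ.dim i)),
    occ w ⟨i, a⟩ % 2 = occ w ⟨i, b⟩ % 2) {x : Letter Λ} (hx : Λ.orth x.1 = true) :
    mult w x.1 = occ w x % 2 := by
  obtain ⟨i, a⟩ := x
  have h : 0 < Λ.dim i := (Nat.zero_le _).trans_lt a.2
  have hx' : Λ.orth i = true := hx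
  unfold mult
  rw [dif_pos h, if_pos hx', hpar i hx' ⟨0, h⟩ a]

lemma card_fiber [Fintype I] (c : I → ℕ) (ν : I) :
    (univ.filter fun j : Σ i : I, Fin (c i) => j.1 = ν).card = c ν := by
  classical
  have h1 : (univ.filter fun j : Σ i : I, Fin (c i) => j.1 = ν) =
      univ.image fun a : Fin (c ν) => (⟨ν, a⟩ : Σ i : I, Fin (c i)) := by
    ext ⟨i, a⟩
    simp only [mem_filter, mem_univ, true_and, mem_image]
    constructor
    · rintro rfl
      exact ⟨a, rfl⟩
    · rintro ⟨j, hj⟩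
      exact (congrArg Sigma.fst hj).symm
  rw [h1, card_image_of_injective, card_univ, Fintype.card_fin]
  intro i j h
  exact eq_of_heq (Sigma.mk.inj_iff.mp h).2

/-- **The first fundamental theorem for `D`.** A tensor of one type and with given parities is a
combination of products of pairings and of determinants, which are the same for all terms. -/
theorem core [Fintype I] (hε : ∀ x : Letter Λ, ¬ Λ.orth x.1 = true → ε (dual x) = -ε x)
    (hε0 : ∀ x, ε x ≠ 0) {t : κ → I} {F : (κ → Letter Λ) → ℂ}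
    (h1 : ∀ b c : Letter Λ, ¬ Λ.orth b.1 = true → (dual b).1 = c.1 → c ≠ dual b →
      ∀ w : κ → Letter Λ, ∑ k, (JJ dual ε b (w k) * F (Function.update w k c) +
        JJ dual ε c (w k) * F (Function.update w k b)) = 0)
    (h1' : ∀ b c : Letter Λ, Λ.orth b.1 = true → b.1 = c.1 →
      ∀ w : κ → Letter Λ, ∑ k, (JJ dual ε b (w k) * F (Function.update w k c) -
        JJ dual ε c (w k) * F (Function.update w k b)) = 0)
    (h2 : ∀ w, F w ≠ 0 → ∀ k, (w k).1 = t k)
    (heq : ∀ w, F w ≠ 0 → ∀ (i : I) (a b : Fin (Λ.dim i)), net w ⟨i, a⟩ = net w ⟨i, b⟩)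
    (hpar : ∀ w, F w ≠ 0 → ∀ (i : I), Λ.orth i = true → ∀ (a b : Fin (Λ.dim i)),
      occ w ⟨i, a⟩ % 2 = occ w ⟨i, b⟩ % 2)
    {w0 : κ → Letter Λ} (hw0 : F w0 ≠ 0)
    (hpar0 : ∀ w, F w ≠ 0 → ∀ x : Letter Λ, Λ.orth x.1 = true → occ w x % 2 = occ w0 x % 2) :
    F ∈ DetSpan ε (fun j : Σ i : I, Fin (mult w0 i) => j.1) κ := by
  classical
  have hnet : ∀ w, F w ≠ 0 → ∀ x, net w x = net w0 x := by
    rintro w hw ⟨i, a⟩
    have e1 : ∑ a, net w ⟨i, a⟩ = ∑ a, net w0 ⟨i, a⟩ := by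
      rw [sum_net, sum_net]
      exact sum_congr rfl fun k _ => by rw [h2 w hw, h2 w0 hw0]
    rw [sum_congr rfl fun j _ => heq w hw i j a, sum_congr rfl fun j _ => heq w0 hw0 i j a,
      sum_const, sum_const, card_univ, Fintype.card_fin, nsmul_eq_mul, nsmul_eq_mul] at e1
    have h : 0 < Λ.dim i := (Nat.zero_le _).trans_lt a.2
    have h3 : ((Λ.dim i : ℕ) : ℤ) ≠ 0 := by exact_mod_cast h.ne'
    exact mul_left_cancel₀ h3 e1
  set μ : (Σ i : I, Fin (mult w0 i)) → I := fun j => j.1 with hμdef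
  have h3 : ∀ w, F w ≠ 0 → ∀ x : Letter Λ, ¬ Λ.orth x.1 = true → net w x =
      ((univ.filter fun j => μ j = x.1).card : ℤ) -
        (univ.filter fun j => μ j = Λ.star x.1).card := by
    intro w hw x hx
    rw [hnet w hw x, net_eq_mult (heq w0 hw0) hx, hμdef, card_fiber, card_fiber]
  have h4 : ∀ w, F w ≠ 0 → ∀ x : Letter Λ, Λ.orth x.1 = true →
      Even (occ w x + (univ.filter fun j => μ j = x.1).card) := by
    intro w hw x hx
    rw [hμdef, card_fiber, mult_orth (hpar w0 hw0) hx, ← hpar0 w hw x hx, Nat.even_iff]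
    omega
  have hpos : ∀ j, 0 < Λ.dim (μ j) := by
    rintro ⟨ν, a⟩
    by_contra h8
    have h5 : 0 < mult w0 ν := (Nat.zero_le _).trans_lt a.2
    unfold mult at h5
    rw [dif_neg h8] at h5
    exact lt_irrefl 0 h5
  -- different determinants are not dual, and a determinant is not dual to itself
  have hkey : ∀ ν ν' : I, 0 < mult w0 ν → 0 < mult w0 ν' → ν = Λ.star ν' → Λ.orth ν = true := by
    intro ν ν' hν hν' h
    by_contra ho
    subst h
    have ho' : ¬ Λ.orth ν' = true := fun h => ho ((orth_star_iff ν').mpr h)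
    have h7 : 0 < Λ.dim ν' := by
      by_contra h8
      unfold mult at hν'
      rw [dif_neg h8] at hν'
      exact lt_irrefl 0 hν'
    have e1 := mult_eq (heq w0 hw0) (x := ⟨ν', ⟨0, h7⟩⟩) ho'
    have e2 := mult_star (heq w0 hw0) (x := ⟨ν', ⟨0, h7⟩⟩) ho'
    have h8 : (0 : ℤ) < mult w0 (Λ.star ν') := by exact_mod_cast hν
    have h9 : (0 : ℤ) < mult w0 ν' := by exact_mod_cast hν'
    rw [e1] at h9
    rw [e2] at h8
    rcases le_total 0 (net w0 ⟨ν', ⟨0, h7⟩⟩) with h | h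
    · rw [max_eq_right (by linarith)] at h8
      exact lt_irrefl 0 h8
    · rw [max_eq_right h] at h9
      exact lt_irrefl 0 h9
  have hμ : ∀ j j', j ≠ j' → μ j ≠ Λ.star (μ j') := by
    rintro ⟨ν, a⟩ ⟨ν', a'⟩ hne h
    have h5 : 0 < mult w0 ν := (Nat.zero_le _).trans_lt a.2
    have h6 : 0 < mult w0 ν' := (Nat.zero_le _).trans_lt a'.2
    have h4 : ν = Λ.star ν' := h
    have ho := hkey ν ν' h5 h6 h4
    have ho' : Λ.orth ν' = true := by rwa [h4, orth_star_iff] at ho
    rw [Λ.orth_star _ ho'] at h4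
    subst h4
    have h7 : 0 < Λ.dim ν := hpos ⟨ν, a⟩
    have h8 : mult w0 ν = occ w0 ⟨ν, ⟨0, h7⟩⟩ % 2 :=
      mult_orth (hpar w0 hw0) (x := ⟨ν, ⟨0, h7⟩⟩) ho
    have h9 : mult w0 ν < 2 := by rw [h8]; exact Nat.mod_lt _ (by norm_num)
    apply hne
    congr 1
    apply Fin.ext
    have := a.2
    have := a'.2
    omega
  have hμ' : ∀ j, Λ.orth (μ j) = true ∨ μ j ≠ Λ.star (μ j) := by
    rintro ⟨ν, a⟩
    have h5 : 0 < mult w0 ν := (Nat.zero_le _).trans_lt a.2
    by_cases h : ν = Λ.star ν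
    · left
      exact hkey ν ν h5 h5 h
    · right
      exact h
  have hmem := addDet_mem hε h1 h1' h2 h3 h4
  -- the number of the positions is even
  have hcard : Even (Fintype.card (κ ⊕ Added (Λ := Λ) μ)) := by
    have hK : addDet Λ μ F (put Λ μ w0 fun _ => 1) ≠ 0 := by
      unfold addDet
      have e1 : ∏ j, detOf (Λ.star (μ j))
          (fun a => put Λ μ w0 (fun _ => 1) (Sum.inr ⟨j, a⟩)) = 1 := by
        refine prod_eq_one fun j _ => ?_
        refine (detOf_perm (Λ.star (μ j)) 1).trans ?_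
        rw [Perm.sign_one]
        norm_num
      rw [e1, mul_one]
      exact hw0
    refine even_card hε hε0 (put Λ μ w0 fun _ => 1) (fun b hb => ?_) fun b hb => ?_
    · have e1 := hmem.gl b (dual b) hb rfl (put Λ μ w0 fun _ => 1)
      rw [kappa_part _ _ (hε b hb), neg_eq_zero, mul_eq_zero, mul_eq_zero] at e1
      rcases e1 with (e1 | e1) | e1
      · exact absurd e1 (hε0 b)
      · exact_mod_cast e1
      · exact absurd e1 hK
    · exact hmem.par b hb _ hK
  obtain ⟨m, hm⟩ := hcard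
  have hM := fftM (O := fun i => Λ.orth i = true) (cls := (Sigma.fst : Letter Λ → I))
    (dual_dual (Λ := Λ)) (fun x hx => dual_of_orth hx) (fun x hx => orth_dual.mp hx) hε hε0
    (fun x y hxy => by rw [dual_fst, dual_fst, hxy]) _ (κ := κ ⊕ Added (Λ := Λ) μ) rfl
    (m := m) (by rw [hm]; ring) hmem
  have hall : ∀ G ∈ MatG (Sigma.fst : Letter Λ → I) dual ε (κ ⊕ Added (Λ := Λ) μ) m,
      rest Λ μ G ∈ DetSpan ε μ κ := by
    intro G hG
    induction hG using Submodule.span_induction with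
    | mem G hG =>
      obtain ⟨e, c, rfl⟩ := hG
      by_cases hbad : ∃ s, ∃ q q' : Added (Λ := Λ) μ, e (s, 0) = Sum.inr q ∧ e (s, 1) = Sum.inr q'
      · obtain ⟨s, q, q', h4, h5⟩ := hbad
        rw [rest_bad hμ hμ' h4 h5]
        exact Submodule.zero_mem _
      · push Not at hbad
        exact rest_good hε fun s q q' h4 => hbad s q q' h4.1 h4.2
    | zero => rw [map_zero]; exact Submodule.zero_mem _
    | add a b _ _ ha hb => rw [map_add]; exact Submodule.add_mem _ ha hb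
    | smul c a _ ha => rw [map_smul]; exact Submodule.smul_mem _ c ha
  have h4 := hall _ hM
  rw [rest_addDet] at h4
  have h5 : (Fintype.card (∀ j : (Σ i : I, Fin (mult w0 i)),
      Perm (Fin (Λ.dim (Λ.star (μ j))))) : ℂ) ≠ 0 := by
    exact_mod_cast Fintype.card_ne_zero
  have h6 := Submodule.smul_mem _ ((Fintype.card (∀ j : (Σ i : I, Fin (mult w0 i)),
    Perm (Fin (Λ.dim (Λ.star (μ j))))) : ℂ)⁻¹) h4
  rwa [smul_smul, inv_mul_cancel₀ h5, one_smul] at h6

end Pool.Agent.Q59.LS
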