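import Pool.Agent.Q59.LS.Defs
import Pool.Agent.Q59.GC.Mix

/-!
# From the group to its Lie algebra
-/

namespace Pool.Agent.Q59.LS

open Pool.Agent.Q59.GC Finset Pool.Agent.H204R3.SP

variable {I : Type} {Λ : Labels I} [DecidableEq I] {ε : Letter Λ → ℂ}

lemma form_apply (x y : Letter Λ) : form ε x y = JJ dual ε x y := rfl

omit [DecidableEq I] in
lemma dual_inj {x y : Letter Λ} (h : dual x = dual y) : x = y := by
  rw [← dual_dual x, h, dual_dual]

omit [DecidableEq I] in
lemma orth_dual {x : Letter Λ} : Λ.orth (dual x).1 = true ↔ Λ.orth x.1 = true := by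
  rw [dual_fst, orth_star_iff]

omit [DecidableEq I] in
lemma dual_ne (hε : ∀ x : Letter Λ, ¬ Λ.orth x.1 = true → ε (dual x) = -ε x) (hε0 : ∀ x, ε x ≠ 0)
    {x : Letter Λ} (hx : ¬ Λ.orth x.1 = true) : dual x ≠ x := by
  intro h
  have h1 := hε x hx
  rw [h] at h1
  have h2 : (2 : ℂ) * ε x = 0 := by linear_combination h1
  exact hε0 x ((mul_eq_zero.mp h2).resolve_left two_ne_zero)

lemma form_anti (hε : ∀ x : Letter Λ, ¬ Λ.orth x.1 = true → ε (dual x) = -ε x) {x : Letter Λ}
    (hx : ¬ Λ.orth x.1 = true) (y : Letter Λ) : form ε x y = - form ε y x := by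
  simp only [form, Matrix.of_apply]
  by_cases h : y = dual x
  · have h2 : x = dual y := by rw [h, dual_dual]
    rw [if_pos h, if_pos h2, h, hε x hx, neg_neg]
  · have h2 : x ≠ dual y := fun h2 => h (by rw [h2, dual_dual])
    rw [if_neg h, if_neg h2, neg_zero]

lemma form_symm {x y : Letter Λ} (hx : Λ.orth x.1 = true) : form ε x y = form ε y x := by
  simp only [form, Matrix.of_apply]
  rw [dual_of_orth hx]
  by_cases h : y = x
  · rw [h, dual_of_orth hx]
  · have h2 : x ≠ dual y := by
      intro h2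
      apply h
      rw [← dual_dual y, ← h2, dual_of_orth hx]
    rw [if_neg h, if_neg h2]

omit [DecidableEq I] in
lemma mk_eq_iff {i : I} {a b : Fin (Λ.dim i)} : ((⟨i, a⟩ : Letter Λ) = ⟨i, b⟩) ↔ a = b :=
  ⟨fun h => eq_of_heq (Sigma.mk.inj_iff.mp h).2, fun h => by rw [h]⟩

omit [DecidableEq I] in
lemma exists_mk {i : I} (x : Letter Λ) (h : x.1 = i) : ∃ a : Fin (Λ.dim i), x = ⟨i, a⟩ := by
  obtain ⟨j, a⟩ := x
  obtain rfl : j = i := h
  exact ⟨a, rfl⟩

variable [Fintype I]

/-- diagonal maps -/
lemma act_diagonal {κ : Type} [Fintype κ] [DecidableEq κ] (d : Letter Λ → ℂ)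
    (x : (κ → Letter Λ) → ℂ) (w : κ → Letter Λ) :
    act (Matrix.diagonal d) x w = (∏ k, d (w k)) * x w := by
  unfold act
  rw [sum_eq_single w]
  · congr 1
    exact prod_congr rfl fun k _ => Matrix.diagonal_apply_eq d (w k)
  · intro J _ hJ
    obtain ⟨k, hk⟩ := Function.ne_iff.mp hJ
    rw [prod_eq_zero (mem_univ k) (Matrix.diagonal_apply_ne d (Ne.symm hk)), zero_mul]
  · intro h
    exact absurd (mem_univ w) h

lemma inD_diagonal {d : Letter Λ → ℂ} (h1 : ∀ x, d x * d (dual x) = 1)
    (h2 : ∀ i : I, (Λ.star i ≠ i ∨ Λ.orth i = true) → ∏ a, d ⟨i, a⟩ = 1) :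
    InD ε (Matrix.diagonal d) := by
  refine ⟨fun x y hxy => Matrix.diagonal_apply_ne d fun h => hxy (by rw [h]), ?_, fun i hi => ?_⟩
  · ext x y
    rw [Matrix.diagonal_transpose, Matrix.mul_diagonal, Matrix.diagonal_mul]
    simp only [form, Matrix.of_apply]
    by_cases h : y = dual x
    · rw [if_pos h, h]
      linear_combination ε x * h1 x
    · rw [if_neg h]; ring
  · have e : (Matrix.of fun a b : Fin (Λ.dim i) => (Matrix.diagonal d : Matrix (Letter Λ) (Letter Λ) ℂ)
        ⟨i, a⟩ ⟨i, b⟩) = Matrix.diagonal fun a => d ⟨i, a⟩ := by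
      ext a b
      rw [Matrix.of_apply]
      by_cases h : a = b
      · subst h
        rw [Matrix.diagonal_apply_eq, Matrix.diagonal_apply_eq]
      · rw [Matrix.diagonal_apply_ne _ h, Matrix.diagonal_apply_ne]
        intro h2
        exact h (mk_eq_iff.mp h2)
    rw [e, Matrix.det_diagonal]
    exact h2 i hi

/-! ## Unipotent elements -/

/-- the elements of the Lie algebra -/
def rt (ε : Letter Λ → ℂ) (b c : Letter Λ) : Matrix (Letter Λ) (Letter Λ) ℂ :=
  Matrix.of fun y z => form ε b y * (if z = c then 1 else 0) + form ε c y * (if z = b then 1 else 0)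

lemma sum_rt (b c y : Letter Λ) (f : Letter Λ → ℂ) :
    ∑ z, rt ε b c y z * f z = form ε b y * f c + form ε c y * f b := by
  have h : ∀ z, rt ε b c y z * f z = (if z = c then form ε b y * f z else 0) +
      (if z = b then form ε c y * f z else 0) := by
    intro z
    simp only [rt, Matrix.of_apply]
    split_ifs <;> ring
  rw [sum_congr rfl fun z _ => h z, sum_add_distrib, sum_ite_eq' univ c, sum_ite_eq' univ b,
    if_pos (mem_univ c), if_pos (mem_univ b)]

omit [Fintype I] in
lemma det_root_aux {b c : Letter Λ} (hbc : (dual b).1 = c.1) (hne : c ≠ dual b) (t : ℂ)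
    {i : I} (hi : Λ.star i ≠ i) (hc : c.1 = i) :
    (Matrix.of fun a a' : Fin (Λ.dim i) => (1 + t • rt ε b c) ⟨i, a⟩ ⟨i, a'⟩).det = 1 := by
  obtain ⟨j0, hj0⟩ := exists_mk c hc
  obtain ⟨i0, hi0⟩ := exists_mk (dual b) (hbc.trans hc)
  have hb : b.1 ≠ i := by
    intro h
    apply hi
    rw [← h, ← dual_fst, hbc, hc]
    exact h.symm
  have hij : i0 ≠ j0 := by
    intro h
    apply hne
    rw [hj0, hi0, h]
  have e : (Matrix.of fun a a' : Fin (Λ.dim i) => (1 + t • rt ε b c) ⟨i, a⟩ ⟨i, a'⟩) =
      Matrix.transvection i0 j0 (t * ε b) := by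
    ext a a'
    rw [Matrix.of_apply, Matrix.transvection, Matrix.add_apply, Matrix.add_apply,
      Matrix.smul_apply, smul_eq_mul]
    congr 1
    · by_cases h : a = a'
      · subst h
        rw [Matrix.one_apply_eq, Matrix.one_apply_eq]
      · rw [Matrix.one_apply_ne h, Matrix.one_apply_ne]
        intro h2
        exact h (mk_eq_iff.mp h2)
    · have h1 : (⟨i, a'⟩ : Letter Λ) ≠ b := fun h => hb (by rw [← h])
      simp only [rt, Matrix.of_apply, form]
      rw [if_neg h1, mul_zero, add_zero, hi0, hj0]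
      simp only [mk_eq_iff]
      by_cases hi : a = i0
      · by_cases hj : a' = j0
        · subst hi hj
          rw [if_pos rfl, if_pos rfl, Matrix.single_apply_same, mul_one]
        · subst hi
          rw [if_neg hj, Matrix.single_apply_of_col_ne _ _ (Ne.symm hj)]; ring
      · rw [if_neg hi, Matrix.single_apply_of_row_ne (Ne.symm hi)]; ring
  rw [e]
  exact Matrix.det_transvection_of_ne i0 j0 hij _

omit [Fintype I] in
lemma rt_comm (b c : Letter Λ) : rt ε b c = rt ε c b := by
  ext y z
  simp only [rt, Matrix.of_apply]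
  ring

lemma inD_root (hε : ∀ x : Letter Λ, ¬ Λ.orth x.1 = true → ε (dual x) = -ε x)
    (hε0 : ∀ x, ε x ≠ 0) {b c : Letter Λ} (hb0 : ¬ Λ.orth b.1 = true)
    (hbc : (dual b).1 = c.1) (hne : c ≠ dual b) (t : ℂ) : InD ε (1 + t • rt ε b c) := by
  have hc0 : ¬ Λ.orth c.1 = true := by
    rw [← hbc, orth_dual]
    exact hb0
  have hcb : (dual c).1 = b.1 := by rw [dual_fst, ← hbc, dual_fst, Λ.star_star]
  have hfbc : form ε b c = 0 := by
    simp only [form, Matrix.of_apply]; rw [if_neg hne]
  have hfcb : form ε c b = 0 := by rw [form_anti hε hc0, hfbc, neg_zero]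
  have hfbb : ∀ x : Letter Λ, ¬ Λ.orth x.1 = true → form ε x x = 0 := fun x hx => by
    simp only [form, Matrix.of_apply]; rw [if_neg (Ne.symm (dual_ne hε hε0 hx))]
  have hbdc : b ≠ dual c := fun h => hne (by rw [h, dual_dual])
  refine ⟨fun x y hxy => ?_, ?_, fun i hi => ?_⟩
  · have h1 : x ≠ y := fun h => hxy (by rw [h])
    rw [Matrix.add_apply, Matrix.one_apply_ne h1, Matrix.smul_apply, zero_add]
    simp only [rt, Matrix.of_apply, form, smul_eq_mul]
    by_cases h2 : x = dual b
    · have h3 : y ≠ c := fun h3 => hxy (by rw [h2, h3, hbc])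
      by_cases h4 : x = dual c
      · have h5 : y ≠ b := fun h5 => hxy (by rw [h4, h5, hcb])
        rw [if_neg h3, if_neg h5]; ring
      · rw [if_neg h3, if_neg h4]; ring
    · rw [if_neg h2]
      by_cases h4 : x = dual c
      · have h5 : y ≠ b := fun h5 => hxy (by rw [h4, h5, hcb])
        rw [if_neg h5]; ring
      · rw [if_neg h4]; ring
  · have e1 : ∀ y z, (rt ε b c * form ε) y z = form ε b y * form ε c z + form ε c y * form ε b z := by
      intro y z
      rw [Matrix.mul_apply]
      exact sum_rt b c y fun w => form ε w z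
    have e2 : ∀ y z, (form ε * (rt ε b c).transpose) y z =
        form ε b z * form ε y c + form ε c z * form ε y b := by
      intro y z
      rw [Matrix.mul_apply]
      have := sum_rt (ε := ε) b c z fun w => form ε y w
      rw [← this]
      exact sum_congr rfl fun w _ => by rw [Matrix.transpose_apply]; ring
    have e3 : rt ε b c * form ε + form ε * (rt ε b c).transpose = 0 := by
      ext y z
      rw [Matrix.add_apply, e1, e2, form_anti hε hc0 y, form_anti hε hb0 y, form_anti hε hb0 z,
        form_anti hε hc0 z, Matrix.zero_apply]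
      ring
    have e4 : rt ε b c * form ε * (rt ε b c).transpose = 0 := by
      ext y z
      rw [Matrix.mul_apply]
      have h1 := sum_rt (ε := ε) b c z fun w => (rt ε b c * form ε) y w
      have h2 : ∑ w, (rt ε b c * form ε) y w * (rt ε b c).transpose w z =
          ∑ w, rt ε b c z w * (rt ε b c * form ε) y w :=
        sum_congr rfl fun w _ => by rw [Matrix.transpose_apply]; ring
      rw [h2, h1, e1, e1, hfbc, hfcb, hfbb b hb0, hfbb c hc0, Matrix.zero_apply]
      ring
    have e5 : (1 + t • rt ε b c) * form ε * (1 + t • rt ε b c).transpose =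
        form ε + t • (rt ε b c * form ε + form ε * (rt ε b c).transpose) +
          (t * t) • (rt ε b c * form ε * (rt ε b c).transpose) := by
      rw [Matrix.transpose_add, Matrix.transpose_one, Matrix.transpose_smul]
      simp only [Matrix.add_mul, Matrix.mul_add, Matrix.one_mul, Matrix.mul_one, Matrix.smul_mul,
        Matrix.mul_smul, smul_add, smul_smul]
      abel
    rw [e5, e3, e4, smul_zero, smul_zero, add_zero, add_zero]
  · by_cases hc : c.1 = i
    · have hi' : Λ.star i ≠ i := by
        rcases hi with h | h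
        · exact h
        · exact absurd h (by rw [← hc]; exact hc0)
      exact det_root_aux hbc hne t hi' hc
    by_cases hb : b.1 = i
    · have hi' : Λ.star i ≠ i := by
        rcases hi with h | h
        · exact h
        · exact absurd h (by rw [← hb]; exact hb0)
      rw [rt_comm]
      exact det_root_aux hcb hbdc t hi' hb
    · have e : (Matrix.of fun a a' : Fin (Λ.dim i) => (1 + t • rt ε b c) ⟨i, a⟩ ⟨i, a'⟩) = 1 := by
        ext a a'
        rw [Matrix.of_apply, Matrix.add_apply, Matrix.smul_apply]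
        have h1 : (⟨i, a'⟩ : Letter Λ) ≠ b := fun h => hb (by rw [← h])
        have h2 : (⟨i, a'⟩ : Letter Λ) ≠ c := fun h => hc (by rw [← h])
        simp only [rt, Matrix.of_apply]
        rw [if_neg h1, if_neg h2, mul_zero, mul_zero, add_zero, smul_zero, add_zero]
        by_cases h : a = a'
        · subst h
          rw [Matrix.one_apply_eq, Matrix.one_apply_eq]
        · rw [Matrix.one_apply_ne h, Matrix.one_apply_ne]
          intro h2
          exact h (mk_eq_iff.mp h2)
      rw [e, Matrix.det_one]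

/-! ## The derivative of the action -/

/-- the derivative of the action -/
lemma lie_of_group {κ : Type} [Fintype κ] [DecidableEq κ] {x : (κ → Letter Λ) → ℂ}
    {X : Matrix (Letter Λ) (Letter Λ) ℂ} {g : ℂ → Matrix (Letter Λ) (Letter Λ) ℂ} (g0 : g 0 = 1)
    (hg : ∀ y z, HasDerivAt (fun t => g t y z) (X y z) 0) (h : ∀ t : ℂ, act (g t) x = x)
    (w : κ → Letter Λ) : ∑ k, ∑ y, X (w k) y * x (Function.update w k y) = 0 := by
  have h1 : ∀ t : ℂ, ∑ J : κ → Letter Λ, (∏ k, g t (w k) (J k)) * x J = x w := fun t =>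
    congrFun (h t) w
  have h2 : HasDerivAt (fun t : ℂ => ∑ J : κ → Letter Λ, (∏ k, g t (w k) (J k)) * x J)
      (∑ J : κ → Letter Λ, (∑ k, (∏ l ∈ univ.erase k, g 0 (w l) (J l)) •
          X (w k) (J k)) * x J) 0 := by
    refine HasDerivAt.fun_sum fun J _ => ?_
    refine HasDerivAt.mul_const ?_ _
    exact HasDerivAt.fun_finsetProd fun k _ => hg (w k) (J k)
  have h3 : (fun t : ℂ => ∑ J : κ → Letter Λ, (∏ k, g t (w k) (J k)) * x J) =
      fun _ => x w := funext h1
  rw [h3] at h2
  have h4 := h2.unique (hasDerivAt_const (0 : ℂ) (x w))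
  rw [← h4, g0]
  have h5 : ∀ J : κ → Letter Λ, (∑ k, (∏ l ∈ univ.erase k,
        ((1 : Matrix (Letter Λ) (Letter Λ) ℂ) (w l) (J l))) •
          X (w k) (J k)) * x J = ∑ k, (if ∀ l, l ≠ k → w l = J l then X (w k) (J k) * x J else 0) := by
    intro J
    rw [sum_mul]
    refine sum_congr rfl fun k _ => ?_
    by_cases h6 : ∀ l, l ≠ k → w l = J l
    · rw [if_pos h6, prod_eq_one, one_smul]
      intro l hl
      rw [h6 l (ne_of_mem_erase hl), Matrix.one_apply_eq]
    · rw [if_neg h6]
      push Not at h6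
      obtain ⟨l, hl, hIJ⟩ := h6
      have h8 : ∏ l ∈ univ.erase k, ((1 : Matrix (Letter Λ) (Letter Λ) ℂ) (w l) (J l)) = 0 :=
        prod_eq_zero (i := l) (mem_erase.mpr ⟨hl, mem_univ l⟩) (Matrix.one_apply_ne hIJ)
      rw [h8, zero_smul, zero_mul]
  rw [sum_congr (rfl : (univ : Finset (κ → Letter Λ)) = univ) fun J _ => h5 J]
  symm
  rw [sum_comm]
  symm
  refine sum_congr rfl fun k _ => ?_
  have h6 : ∑ J : κ → Letter Λ, (if ∀ l, l ≠ k → w l = J l then X (w k) (J k) * x J else 0) =
      ∑ J ∈ univ.filter (fun J : κ → Letter Λ => ∀ l, l ≠ k → w l = J l),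
        X (w k) (J k) * x J := (sum_filter _ _).symm
  rw [h6]
  refine sum_bij (fun y _ => Function.update w k y) ?_ ?_ ?_ ?_
  · intro y _
    rw [mem_filter]
    refine ⟨mem_univ _, fun l hl => ?_⟩
    rw [Function.update_of_ne hl]
  · intro y _ z _ hyz
    have := congrFun hyz k
    rwa [Function.update_self, Function.update_self] at this
  · intro J hJ
    rw [mem_filter] at hJ
    refine ⟨J k, mem_univ _, ?_⟩
    funext l
    by_cases hl : l = k
    · subst hl; rw [Function.update_self]
    · rw [Function.update_of_ne hl, hJ.2 l hl]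
  · intro y _
    rw [Function.update_self]

/-- the relations of the roots -/
lemma root_rel (hε : ∀ x : Letter Λ, ¬ Λ.orth x.1 = true → ε (dual x) = -ε x)
    (hε0 : ∀ x, ε x ≠ 0) {κ : Type} [Fintype κ]
    [DecidableEq κ] {x : (κ → Letter Λ) → ℂ} (hx : ∀ g, InD ε g → act g x = x) {b c : Letter Λ}
    (hb0 : ¬ Λ.orth b.1 = true)
    (hbc : (dual b).1 = c.1) (hne : c ≠ dual b) (w : κ → Letter Λ) :
    ∑ k, (JJ dual ε b (w k) * x (Function.update w k c) +
      JJ dual ε c (w k) * x (Function.update w k b)) = 0 := by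
  have h1 : ∀ y z, HasDerivAt (fun t : ℂ => (1 + t • rt ε b c) y z) (rt ε b c y z) 0 := by
    intro y z
    have h4 := ((hasDerivAt_id (0 : ℂ)).mul_const (rt ε b c y z)).const_add
      ((1 : Matrix (Letter Λ) (Letter Λ) ℂ) y z)
    simpa using h4
  rw [← lie_of_group (g := fun t => 1 + t • rt ε b c) (by simp) h1
    (fun t => hx _ (inD_root hε hε0 hb0 hbc hne t)) w]
  exact sum_congr rfl fun k _ => (sum_rt b c (w k) fun y => x (Function.update w k y)).symm

end Pool.Agent.Q59.LS
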