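import Pool.Agent.Q59.LS.Rest

/-!
# Matchings
-/

namespace Pool.Agent.Q59.LS

open Pool.Agent.Q59.GC Finset Equiv Pool.Agent.H204R3.SP Pool.Agent.H204R3.GP

variable {I : Type} {Λ : Labels I} [DecidableEq I] {ε : Letter Λ → ℂ}

variable {κ L : Type} [Fintype κ] [DecidableEq κ] [Fintype L] [DecidableEq L]
  {μ : L → I} {m : ℕ} {e : Fin m × Fin 2 ≃ κ ⊕ Added (Λ := Λ) μ} {c : Fin m → I}

omit [Fintype κ] [DecidableEq κ] in
/-- a matching of two added positions gives zero -/
lemma rest_bad (hμ : ∀ j j', j ≠ j' → μ j ≠ Λ.star (μ j'))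
    (hμ' : ∀ j, Λ.orth (μ j) = true ∨ μ j ≠ Λ.star (μ j))
    {s : Fin m} {q q' : Added (Λ := Λ) μ}
    (h0 : e (s, 0) = Sum.inr q) (h1 : e (s, 1) = Sum.inr q') :
    rest Λ μ (matG Sigma.fst dual ε e c) = 0 := by
  funext w
  rw [rest_apply]
  refine sum_eq_zero fun σ _ => ?_
  have h2 : matG Sigma.fst dual ε e c (put Λ μ w σ) = 0 := by
    refine prod_eq_zero (mem_univ s) ?_
    rw [h0, h1]
    split_ifs
    · unfold JJ
      rw [if_neg]
      intro h3
      have h4 : Λ.star (μ q'.1) = μ q.1 := by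
        have h5 := congrArg Sigma.fst h3
        rw [dual_fst] at h5
        have h6 : Λ.star (μ q'.1) = Λ.star (Λ.star (μ q.1)) := h5
        rwa [Λ.star_star] at h6
      by_cases hqq : q.1 = q'.1
      · rcases hμ' q.1 with ho | hne
        · -- the same orthogonal determinant
          have ho' : Λ.orth (Λ.star (μ q.1)) = true := (orth_star_iff _).mpr ho
          obtain ⟨j, a⟩ := q
          obtain ⟨j', a'⟩ := q'
          obtain rfl : j = j' := hqq
          have h5 : put Λ μ w σ (Sum.inr ⟨j, a'⟩) = put Λ μ w σ (Sum.inr ⟨j, a⟩) := by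
            rw [h3]
            exact dual_of_orth ho'
          have h6 : (⟨Λ.star (μ j), σ j a'⟩ : Letter Λ) = ⟨Λ.star (μ j), σ j a⟩ := h5
          have h7 : a' = a := (σ j).injective (mk_eq_iff.mp h6)
          subst h7
          have h8 : (s, (0 : Fin 2)) = (s, 1) := e.injective (by rw [h0, h1])
          have h9 : (0 : Fin 2) = 1 := congrArg Prod.snd h8
          exact absurd h9 (by decide)
        · exact hne (by rw [hqq] at h4 ⊢; exact h4.symm)
      · exact hμ q.1 q'.1 hqq h4.symm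
    · rfl
  rw [h2, mul_zero]

omit [Fintype L] [DecidableEq L] in
/-- the factor of a pair with one added position -/
lemma mixed (j : L) (c' : I)
    (hε : ∀ x : Letter Λ, ¬ Λ.orth x.1 = true → ε (dual x) = -ε x) (a : Fin 2) :
    ∃ u : ℂ, ∀ (i' : Fin (Λ.dim (Λ.star (μ j)))) (x : Letter Λ),
      (if a = 0 then
        (if (⟨Λ.star (μ j), i'⟩ : Letter Λ).1 = c' then JJ dual ε ⟨Λ.star (μ j), i'⟩ x else 0) else
        (if x.1 = c' then JJ dual ε x ⟨Λ.star (μ j), i'⟩ else 0)) =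
      u * (ε ⟨Λ.star (μ j), i'⟩ * if x = dual ⟨Λ.star (μ j), i'⟩ then (1 : ℂ) else 0) := by
  by_cases ha : a = 0
  · refine ⟨if Λ.star (μ j) = c' then 1 else 0, fun i' x => ?_⟩
    rw [if_pos ha]
    unfold JJ
    split_ifs <;> ring
  · refine ⟨if μ j = c' then (if Λ.orth (μ j) = true then 1 else -1) else 0, fun i' x => ?_⟩
    rw [if_neg ha]
    unfold JJ
    by_cases hx : x = dual ⟨Λ.star (μ j), i'⟩
    · have h1 : (⟨Λ.star (μ j), i'⟩ : Letter Λ) = dual x := by rw [hx, dual_dual]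
      have h2 : x.1 = μ j := by rw [hx, dual_fst]; exact Λ.star_star (μ j)
      have h3 : ε x = (if Λ.orth (μ j) = true then 1 else -1) * ε ⟨Λ.star (μ j), i'⟩ := by
        by_cases ho : Λ.orth (μ j) = true
        · have ho' : Λ.orth (Λ.star (μ j)) = true := (orth_star_iff _).mpr ho
          rw [if_pos ho, hx, dual_of_orth (x := ⟨Λ.star (μ j), i'⟩) ho', one_mul]
        · have ho' : ¬ Λ.orth (Λ.star (μ j)) = true := fun h => ho ((orth_star_iff _).mp h)
          rw [if_neg ho, hx, hε ⟨Λ.star (μ j), i'⟩ ho']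
          ring
      rw [if_pos hx, if_pos h1, h2, h3]
      split_ifs <;> ring
    · have h1 : (⟨Λ.star (μ j), i'⟩ : Letter Λ) ≠ dual x := fun h => hx (by rw [h, dual_dual])
      rw [if_neg hx, if_neg h1]
      split_ifs <;> ring

/-- a matching without pairs of added positions -/
lemma rest_good (hε : ∀ x : Letter Λ, ¬ Λ.orth x.1 = true → ε (dual x) = -ε x)
    (hgood : ∀ s (q q' : Added (Λ := Λ) μ), ¬ (e (s, 0) = Sum.inr q ∧ e (s, 1) = Sum.inr q')) :
    rest Λ μ (matG Sigma.fst dual ε e c) ∈ DetSpan ε μ κ := by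
  classical
  -- the partner of an added position
  have hpart : ∀ q : Added (Λ := Λ) μ, ∃ k : κ,
      e ((e.symm (Sum.inr q)).1, Fin.rev (e.symm (Sum.inr q)).2) = Sum.inl k := by
    intro q
    obtain ⟨⟨s, a⟩, hsa⟩ : ∃ p, e.symm (Sum.inr q) = p := ⟨_, rfl⟩
    have h1 : e (s, a) = Sum.inr q := by rw [← hsa, Equiv.apply_symm_apply]
    rw [hsa]
    rcases h2 : e (s, Fin.rev a) with k | q'
    · exact ⟨k, rfl⟩
    · exfalso
      fin_cases a
      · exact hgood s q q' ⟨h1, h2⟩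
      · exact hgood s q' q ⟨h2, h1⟩
  choose pos hpos using hpart
  -- the pairs of old positions
  let P : Type := {s : Fin m // (∃ k, e (s, 0) = Sum.inl k) ∧ ∃ k, e (s, 1) = Sum.inl k}
  have hold : ∀ (s : P) (a : Fin 2), ∃ k, e (s.1, a) = Sum.inl k := by
    intro s a
    fin_cases a
    · exact s.2.1
    · exact s.2.2
  choose old hold using hold
  have hnotP : ∀ (q : Added (Λ := Λ) μ) (s : P), (e.symm (Sum.inr q)).1 ≠ s.1 := by
    intro q s h
    have h1 := hold s (e.symm (Sum.inr q)).2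
    rw [← h] at h1
    have h2 : e (e.symm (Sum.inr q)) = Sum.inr q := e.apply_symm_apply _
    rw [show e.symm (Sum.inr q) = ((e.symm (Sum.inr q)).1, (e.symm (Sum.inr q)).2) from rfl] at h2
    rw [h2] at h1
    exact Sum.inr_ne_inl h1
  have hinjs : ∀ q q' : Added (Λ := Λ) μ,
      (e.symm (Sum.inr q)).1 = (e.symm (Sum.inr q')).1 → q = q' := by
    intro q q' h
    obtain ⟨⟨s, a⟩, hsa⟩ : ∃ p, e.symm (Sum.inr q) = p := ⟨_, rfl⟩
    obtain ⟨⟨s', a'⟩, hsa'⟩ : ∃ p, e.symm (Sum.inr q') = p := ⟨_, rfl⟩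
    rw [hsa, hsa'] at h
    obtain rfl : s = s' := h
    have h1 : e (s, a) = Sum.inr q := by rw [← hsa, Equiv.apply_symm_apply]
    have h2 : e (s, a') = Sum.inr q' := by rw [← hsa', Equiv.apply_symm_apply]
    by_cases haa : a = a'
    · subst haa
      rw [h1] at h2
      exact Sum.inr_injective h2
    · exfalso
      fin_cases a <;> fin_cases a'
      · exact haa rfl
      · exact hgood s q q' ⟨h1, h2⟩
      · exact hgood s q' q ⟨h2, h1⟩
      · exact haa rfl
  -- the pairs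
  let E1 : P ⊕ Added (Λ := Λ) μ ≃ Fin m := Equiv.ofBijective
    (Sum.elim (fun s => s.1) fun q => (e.symm (Sum.inr q)).1) (by
      constructor
      · rintro (s | q) (s' | q') h
        · exact congrArg Sum.inl (Subtype.ext h)
        · exact absurd h.symm (hnotP q' s)
        · exact absurd h (hnotP q s')
        · exact congrArg Sum.inr (hinjs q q' h)
      · intro s
        rcases h0 : e (s, 0) with k | q
        · rcases h1 : e (s, 1) with k' | q
          · exact ⟨Sum.inl ⟨s, ⟨k, h0⟩, ⟨k', h1⟩⟩, rfl⟩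
          · refine ⟨Sum.inr q, ?_⟩
            simp only [Sum.elim_inr]
            rw [← h1, Equiv.symm_apply_apply]
        · refine ⟨Sum.inr q, ?_⟩
          simp only [Sum.elim_inr]
          rw [← h0, Equiv.symm_apply_apply])
  let θ : (Σ j : L, Fin (Λ.dim (μ j))) ≃ Added (Λ := Λ) μ :=
    Equiv.sigmaCongrRight fun j => finCongr (Λ.dim_star (μ j)).symm
  -- the positions
  let E2 : (Σ j : L, Fin (Λ.dim (μ j))) ⊕ (P × Fin 2) ≃ κ := Equiv.ofBijective
    (Sum.elim (fun q => pos (θ q)) fun sa => old sa.1 sa.2) (by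
      constructor
      · rintro (q | ⟨s, a⟩) (q' | ⟨s', a'⟩) h
        · simp only [Sum.elim_inl] at h
          have h1 := hpos (θ q)
          rw [h, ← hpos (θ q')] at h1
          have h2 := e.injective h1
          have h3 := hinjs (θ q) (θ q') (Prod.mk.inj h2).1
          exact congrArg Sum.inl (θ.injective h3)
        · exfalso
          simp only [Sum.elim_inl, Sum.elim_inr] at h
          have h1 := hpos (θ q)
          rw [h, ← hold s' a'] at h1
          exact hnotP _ _ (congrArg Prod.fst (e.injective h1))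
        · exfalso
          simp only [Sum.elim_inl, Sum.elim_inr] at h
          have h1 := hpos (θ q')
          rw [← h, ← hold s a] at h1
          exact hnotP _ _ (congrArg Prod.fst (e.injective h1))
        · simp only [Sum.elim_inr] at h
          have h1 := hold s a
          rw [h, ← hold s' a'] at h1
          have h2 := e.injective h1
          have h3 : s = s' := Subtype.ext (congrArg Prod.fst h2)
          have h4 : a = a' := congrArg Prod.snd h2
          rw [h3, h4]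
      · intro k
        obtain ⟨⟨s, a⟩, hsa⟩ : ∃ p, e.symm (Sum.inl k) = p := ⟨_, rfl⟩
        have h1 : e (s, a) = Sum.inl k := by rw [← hsa, Equiv.apply_symm_apply]
        rcases h2 : e (s, Fin.rev a) with k' | q
        · have h3 : (∃ k, e (s, 0) = Sum.inl k) ∧ ∃ k, e (s, 1) = Sum.inl k := by
            fin_cases a
            · exact ⟨⟨k, h1⟩, ⟨k', h2⟩⟩
            · exact ⟨⟨k', h2⟩, ⟨k, h1⟩⟩
          refine ⟨Sum.inr (⟨s, h3⟩, a), ?_⟩
          simp only [Sum.elim_inr]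
          have h4 := hold ⟨s, h3⟩ a
          rw [h1] at h4
          exact (Sum.inl_injective h4).symm
        · refine ⟨Sum.inl (θ.symm q), ?_⟩
          simp only [Sum.elim_inl, Equiv.apply_symm_apply]
          have h3 : e.symm (Sum.inr q) = (s, Fin.rev a) := by rw [← h2, Equiv.symm_apply_apply]
          have h4 := hpos q
          rw [h3] at h4
          simp only [Fin.rev_rev] at h4
          rw [h1] at h4
          exact (Sum.inl_injective h4).symm)
  -- the constants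
  have hw : ∀ q : Added (Λ := Λ) μ, ∃ u : ℂ, ∀ (i' : Fin (Λ.dim (Λ.star (μ q.1)))) (x : Letter Λ),
      (if (e.symm (Sum.inr q)).2 = 0 then
        (if (⟨Λ.star (μ q.1), i'⟩ : Letter Λ).1 = c (e.symm (Sum.inr q)).1 then
          JJ dual ε ⟨Λ.star (μ q.1), i'⟩ x else 0) else
        (if x.1 = c (e.symm (Sum.inr q)).1 then JJ dual ε x ⟨Λ.star (μ q.1), i'⟩ else 0)) =
      u * (ε ⟨Λ.star (μ q.1), i'⟩ * if x = dual ⟨Λ.star (μ q.1), i'⟩ then (1 : ℂ) else 0) :=
    fun q => mixed q.1 _ hε _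
  choose u hu using hw
  choose δ hδ using fun j : L => det_dual (Λ := Λ) (μ j)
  have hfac : ∀ (w : κ → Letter Λ) (σ : ∀ j : L, Perm (Fin (Λ.dim (Λ.star (μ j)))))
      (q : Added (Λ := Λ) μ),
      (if (put Λ μ w σ (e ((e.symm (Sum.inr q)).1, 0))).1 = c (e.symm (Sum.inr q)).1 then
        JJ dual ε (put Λ μ w σ (e ((e.symm (Sum.inr q)).1, 0)))
          (put Λ μ w σ (e ((e.symm (Sum.inr q)).1, 1))) else 0) =
      u q * (ε ⟨Λ.star (μ q.1), σ q.1 q.2⟩ *
        if w (pos q) = dual ⟨Λ.star (μ q.1), σ q.1 q.2⟩ then (1 : ℂ) else 0) := by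
    intro w σ q
    rw [← hu q]
    have h2 := hpos q
    obtain ⟨⟨s, a⟩, hsa⟩ : ∃ p, e.symm (Sum.inr q) = p := ⟨_, rfl⟩
    have h1 : e (s, a) = Sum.inr q := by rw [← hsa, Equiv.apply_symm_apply]
    rw [hsa] at h2 ⊢
    fin_cases a
    · have h3 : e (s, 0) = Sum.inr q := h1
      have h4 : e (s, 1) = Sum.inl (pos q) := h2
      simp only [Fin.zero_eta, if_true, h3, h4]
      rfl
    · have h3 : e (s, 1) = Sum.inr q := h1
      have h4 : e (s, 0) = Sum.inl (pos q) := h2
      have h5 : ¬ (1 : Fin 2) = 0 := by decide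
      simp only [Fin.mk_one, h3, h4, h5, if_false]
      rfl
  have hP : ∀ (w : κ → Letter Λ) (σ : ∀ j : L, Perm (Fin (Λ.dim (Λ.star (μ j))))) (s : P),
      (if (put Λ μ w σ (e (s.1, 0))).1 = c s.1 then JJ dual ε (put Λ μ w σ (e (s.1, 0)))
        (put Λ μ w σ (e (s.1, 1))) else 0) = pairOf ε (c s.1) (w (old s 0)) (w (old s 1)) := by
    intro w σ s
    rw [hold s 0, hold s 1]
    rfl
  have hval : rest Λ μ (matG Sigma.fst dual ε e c) =
      ((∏ q, u q) * ∏ j, ((∏ i, ε ⟨Λ.star (μ j), i⟩) * δ j)) •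
        prodOf ε μ (fun s : P => c s.1) E2 := by
    funext w
    rw [rest_apply, Pi.smul_apply, smul_eq_mul]
    have h1 : ∀ σ : ∀ j : L, Perm (Fin (Λ.dim (Λ.star (μ j)))),
        sg σ * matG Sigma.fst dual ε e c (put Λ μ w σ) =
        (∏ s : P, pairOf ε (c s.1) (w (old s 0)) (w (old s 1))) * ((∏ q, u q) *
          ∏ j, (((Perm.sign (σ j) : ℤ) : ℂ) * ∏ i, (ε ⟨Λ.star (μ j), σ j i⟩ *
            if w (pos ⟨j, i⟩) = dual ⟨Λ.star (μ j), σ j i⟩ then (1 : ℂ) else 0))) := by
      intro σ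
      have h2 : matG Sigma.fst dual ε e c (put Λ μ w σ) =
          (∏ s : P, pairOf ε (c s.1) (w (old s 0)) (w (old s 1))) *
          ∏ q : Added (Λ := Λ) μ, (u q * (ε ⟨Λ.star (μ q.1), σ q.1 q.2⟩ *
            if w (pos q) = dual ⟨Λ.star (μ q.1), σ q.1 q.2⟩ then (1 : ℂ) else 0)) := by
        unfold matG
        rw [← Equiv.prod_comp E1, Fintype.prod_sum_type]
        congr 1
        · exact Fintype.prod_congr _ _ fun s => hP w σ s
        · exact Fintype.prod_congr _ _ fun q => hfac w σ q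
      rw [h2, prod_mul_distrib]
      have h3 : ∏ q : Added (Λ := Λ) μ, (ε ⟨Λ.star (μ q.1), σ q.1 q.2⟩ *
            if w (pos q) = dual ⟨Λ.star (μ q.1), σ q.1 q.2⟩ then (1 : ℂ) else 0) =
          ∏ j, ∏ i, (ε ⟨Λ.star (μ j), σ j i⟩ *
            if w (pos ⟨j, i⟩) = dual ⟨Λ.star (μ j), σ j i⟩ then (1 : ℂ) else 0) := by
        rw [← univ_sigma_univ, prod_sigma]
      rw [h3, prod_mul_distrib]
      unfold sg
      ring
    rw [sum_congr rfl fun σ _ => h1 σ, ← mul_sum, ← mul_sum]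
    have h4 : ∑ σ : ∀ j : L, Perm (Fin (Λ.dim (Λ.star (μ j)))),
        ∏ j, (((Perm.sign (σ j) : ℤ) : ℂ) *
        ∏ i, (ε ⟨Λ.star (μ j), σ j i⟩ * if w (pos ⟨j, i⟩) = dual ⟨Λ.star (μ j), σ j i⟩
          then (1 : ℂ) else 0)) =
        ∏ j, ∑ τ : Perm (Fin (Λ.dim (Λ.star (μ j)))), (((Perm.sign τ : ℤ) : ℂ) *
        ∏ i, (ε ⟨Λ.star (μ j), τ i⟩ * if w (pos ⟨j, i⟩) = dual ⟨Λ.star (μ j), τ i⟩
          then (1 : ℂ) else 0)) := by
      rw [prod_univ_sum, Fintype.piFinset_univ]
    have h5 : ∀ j, ∑ τ : Perm (Fin (Λ.dim (Λ.star (μ j)))), (((Perm.sign τ : ℤ) : ℂ) *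
        ∏ i, (ε ⟨Λ.star (μ j), τ i⟩ * if w (pos ⟨j, i⟩) = dual ⟨Λ.star (μ j), τ i⟩
          then (1 : ℂ) else 0)) =
        ((∏ i, ε ⟨Λ.star (μ j), i⟩) * δ j) *
          detOf (μ j) fun i => w (pos ⟨j, Fin.cast (Λ.dim_star (μ j)).symm i⟩) := by
      intro j
      have h6 := hδ j fun i => w (pos ⟨j, i⟩)
      rw [mul_assoc, ← h6, Matrix.det_apply', mul_sum]
      refine sum_congr rfl fun τ _ => ?_
      rw [prod_mul_distrib, Equiv.prod_comp τ fun i => ε ⟨Λ.star (μ j), i⟩]
      simp only [Matrix.of_apply]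
      ring
    rw [h4, prod_congr rfl fun j _ => h5 j, prod_mul_distrib]
    unfold prodOf
    have h6 : ∀ j (i : Fin (Λ.dim (μ j))), E2 (Sum.inl ⟨j, i⟩) =
        pos ⟨j, Fin.cast (Λ.dim_star (μ j)).symm i⟩ := fun j i => rfl
    have h7 : ∀ (s : P) (a : Fin 2), E2 (Sum.inr (s, a)) = old s a := fun s a => rfl
    simp only [h6, h7]
    ring
  rw [hval]
  exact Submodule.smul_mem _ _ (prodOf_mem μ _ E2)

end Pool.Agent.Q59.LS
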