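import Pool.Agent.Q59.LS.Det

/-!
# Removing the added determinants from a product over a matching
-/

namespace Pool.Agent.Q59.LS

open Pool.Agent.Q59.GC Finset Equiv Pool.Agent.H204R3.SP Pool.Agent.H204R3.GP

variable {I : Type} {Λ : Labels I} [DecidableEq I] {ε : Letter Λ → ℂ}

lemma detOf_perm (i : I) (σ : Perm (Fin (Λ.dim i))) :
    detOf i (fun a => (⟨i, σ a⟩ : Letter Λ)) = ((Perm.sign σ : ℤ) : ℂ) := by
  have e : (Matrix.of fun a b : Fin (Λ.dim i) => if (⟨i, σ a⟩ : Letter Λ) = ⟨i, b⟩ then (1 : ℂ) else 0) =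
      (1 : Matrix (Fin (Λ.dim i)) (Fin (Λ.dim i)) ℂ).submatrix σ id := by
    ext a b
    rw [Matrix.of_apply, Matrix.submatrix_apply, Matrix.one_apply]
    simp only [mk_eq_iff, id]
  unfold detOf
  rw [e, Matrix.det_permute, Matrix.det_one, mul_one]

/-- the determinant of the dual letters -/
lemma det_dual (i : I) : ∃ δ : ℂ, ∀ x : Fin (Λ.dim (Λ.star i)) → Letter Λ,
    (Matrix.of fun a' a : Fin (Λ.dim (Λ.star i)) =>
      if x a = dual ⟨Λ.star i, a'⟩ then (1 : ℂ) else 0).det =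
      δ * detOf i fun a => x (Fin.cast (Λ.dim_star i).symm a) := by
  let θ : Fin (Λ.dim (Λ.star i)) ≃ Fin (Λ.dim i) := finCongr (Λ.dim_star i)
  let π : Perm (Fin (Λ.dim (Λ.star i))) :=
    if Λ.orth i = true then Equiv.refl _ else Fin.revPerm
  refine ⟨((Perm.sign π : ℤ) : ℂ), fun x => ?_⟩
  have h1 : ∀ a', dual (⟨Λ.star i, a'⟩ : Letter Λ) = ⟨i, θ (π a')⟩ := by
    intro a'
    by_cases h : Λ.orth i = true
    · have h2 : Λ.orth (Λ.star i) = true := (orth_star_iff i).mpr h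
      rw [dual_of_orth (x := ⟨Λ.star i, a'⟩) h2]
      refine letter_ext (Λ.orth_star i h) ?_
      simp only [θ, π, finCongr_apply, Fin.val_cast]
      rw [if_pos h]
      rfl
    · have h2 : ¬ Λ.orth (Λ.star i) = true := fun h3 => h ((orth_star_iff i).mp h3)
      rw [dual_of_not (x := ⟨Λ.star i, a'⟩) h2]
      refine letter_ext (Λ.star_star i) ?_
      simp only [θ, π, finCongr_apply, Fin.val_cast]
      rw [if_neg h]
      rfl
  unfold detOf
  rw [← Matrix.det_transpose, ← Matrix.det_submatrix_equiv_self θ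
    (Matrix.of fun a b : Fin (Λ.dim i) =>
      if x (Fin.cast (Λ.dim_star i).symm a) = (⟨i, b⟩ : Letter Λ) then (1 : ℂ) else 0),
    ← Matrix.det_permute' π]
  congr 1
  ext a a'
  rw [Matrix.transpose_apply, Matrix.of_apply, Matrix.submatrix_apply, Matrix.submatrix_apply,
    Matrix.of_apply, h1]
  rfl

section

variable {κ L P P' : Type} [Fintype κ] [DecidableEq κ] [Fintype L] [DecidableEq L]
  [Fintype P] [Fintype P']

/-- the span of the products with the given determinants -/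
noncomputable def DetSpan (ε : Letter Λ → ℂ) (μ : L → I) (κ : Type) :
    Submodule ℂ ((κ → Letter Λ) → ℂ) :=
  Submodule.span ℂ {x | ∃ (p : ℕ) (ν : Fin p → I)
    (e : (Σ j : L, Fin (Λ.dim (μ j))) ⊕ (Fin p × Fin 2) ≃ κ), x = prodOf ε μ ν e}

omit [Fintype κ] [DecidableEq κ] [DecidableEq L] in
lemma prodOf_mem (μ : L → I) (ν : P → I)
    (e : (Σ j : L, Fin (Λ.dim (μ j))) ⊕ (P × Fin 2) ≃ κ) : prodOf ε μ ν e ∈ DetSpan ε μ κ := by
  let η := Fintype.equivFin P
  refine Submodule.subset_span ⟨Fintype.card P, fun q => ν (η.symm q),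
    (Equiv.sumCongr (Equiv.refl _) (Equiv.prodCongr η.symm (Equiv.refl _))).trans e, ?_⟩
  funext w
  unfold prodOf
  congr 1
  exact Fintype.prod_equiv η _ _ fun q => by simp

omit [DecidableEq I] in
variable (Λ) in
/-- the letters put at the added positions -/
def put (μ : L → I) (w : κ → Letter Λ) (σ : ∀ j : L, Perm (Fin (Λ.dim (Λ.star (μ j))))) :
    κ ⊕ Added (Λ := Λ) μ → Letter Λ :=
  Sum.elim w fun q => ⟨Λ.star (μ q.1), σ q.1 q.2⟩

/-- the sign of a family of permutations -/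
noncomputable def sg {μ : L → I} (σ : ∀ j : L, Perm (Fin (Λ.dim (Λ.star (μ j))))) : ℂ :=
  ∏ j, ((Perm.sign (σ j) : ℤ) : ℂ)

omit [DecidableEq I] in
variable (Λ) in
/-- the antisymmetrized value -/
noncomputable def rest (μ : L → I) :
    ((κ ⊕ Added (Λ := Λ) μ → Letter Λ) → ℂ) →ₗ[ℂ] ((κ → Letter Λ) → ℂ) where
  toFun G := fun w => ∑ σ : ∀ j : L, Perm (Fin (Λ.dim (Λ.star (μ j)))), sg σ * G (put Λ μ w σ)
  map_add' G G' := by
    funext w
    simp only [Pi.add_apply, mul_add, sum_add_distrib]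
  map_smul' c G := by
    funext w
    simp only [Pi.smul_apply, smul_eq_mul, RingHom.id_apply, mul_sum]
    exact sum_congr rfl fun σ _ => by ring

omit [DecidableEq I] [Fintype κ] [DecidableEq κ] in
lemma rest_apply (μ : L → I) (G : (κ ⊕ Added (Λ := Λ) μ → Letter Λ) → ℂ) (w : κ → Letter Λ) :
    rest Λ μ G w = ∑ σ : ∀ j : L, Perm (Fin (Λ.dim (Λ.star (μ j)))), sg σ * G (put Λ μ w σ) := rfl

omit [DecidableEq I] [DecidableEq L] in
lemma sg_sq {μ : L → I} (σ : ∀ j : L, Perm (Fin (Λ.dim (Λ.star (μ j))))) :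
    sg σ * sg σ = 1 := by
  unfold sg
  rw [← prod_mul_distrib]
  refine prod_eq_one fun j _ => ?_
  rcases Int.units_eq_one_or (Perm.sign (σ j)) with h | h <;> rw [h] <;> norm_num

omit [Fintype κ] [DecidableEq κ] in
lemma rest_addDet (μ : L → I) (F : (κ → Letter Λ) → ℂ) :
    rest Λ μ (addDet Λ μ F) =
      (Fintype.card (∀ j : L, Perm (Fin (Λ.dim (Λ.star (μ j))))) : ℂ) • F := by
  funext w
  rw [rest_apply]
  have h : ∀ σ : ∀ j : L, Perm (Fin (Λ.dim (Λ.star (μ j)))),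
      sg σ * addDet Λ μ F (put Λ μ w σ) = F w := by
    intro σ
    unfold addDet
    have h1 : ∏ j, detOf (Λ.star (μ j)) (fun a => put Λ μ w σ (Sum.inr ⟨j, a⟩)) = sg σ := by
      unfold sg
      exact prod_congr rfl fun j _ => detOf_perm (Λ.star (μ j)) (σ j)
    rw [h1, mul_comm, mul_assoc, sg_sq, mul_one]
    rfl
  rw [sum_congr rfl fun σ _ => h σ, sum_const, card_univ, Pi.smul_apply, nsmul_eq_mul, smul_eq_mul]

end

end Pool.Agent.Q59.LS
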